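import Mathlib

/-!
# Definitions for the extension problem of invariant orders (MP_f3e693_al)
-/

set_option autoImplicit false

namespace Pool.Agent.H76.Ext

/-- The commutator `[z, y] = z⁻¹ y⁻¹ z y`. -/
def comm {G : Type} [Group G] (z y : G) : G := z⁻¹ * y⁻¹ * z * y

/-- The iterated commutator `[x, _n y]` (with `[x, _0 y] = x`). -/
def engelComm {G : Type} [Group G] (x y : G) (n : ℕ) : G := (fun z => comm z y)^[n] x

/-- `Q` is an Engel group. -/
def IsEngel (Q : Type) [Group Q] : Prop := ∀ x y : Q, ∃ n : ℕ, 1 ≤ n ∧ engelComm x y n = 1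

/-- `Q` is periodic. -/
def IsPeriodic (Q : Type) [Group Q] : Prop := ∀ x : Q, ∃ n : ℕ, 1 ≤ n ∧ x ^ n = 1

/-- `G` is torsion-free. -/
def TorsionFree (G : Type) [Group G] : Prop := ∀ (g : G) (n : ℕ), 1 ≤ n → g ^ n = 1 → g = 1

/-- `P` is the positive cone of a `G`-invariant total order on the subgroup `H` which makes `H`
an o-group. -/
structure IsInvCone {G : Type} [Group G] (H : Subgroup G) (P : Set G) : Prop where
  sub : ∀ x, x ∈ P → x ∈ H
  mul : ∀ x y, x ∈ P → y ∈ P → x * y ∈ P
  one : (1 : G) ∉ P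
  tot : ∀ x, x ∈ H → x ≠ 1 → (x ∈ P ∨ x⁻¹ ∈ P)
  conj : ∀ g x, x ∈ P → g * x * g⁻¹ ∈ P

/-- The group `G` has the extension property: whenever `H` is a normal subgroup of `G` with `G ⧸ H`
periodic and Engel, every `G`-invariant total order on `H` making `H` an o-group is the restriction
of a total order on `G` making `G` an o-group. -/
def ExtProp (G : Type) [Group G] : Prop :=
  ∀ (H : Subgroup G) [H.Normal], IsPeriodic (G ⧸ H) → IsEngel (G ⧸ H) →
    ∀ P : Set G, IsInvCone H P → ∃ Q : Set G, IsInvCone (⊤ : Subgroup G) Q ∧ P = Q ∩ H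

/-- `E` is an Engel group all of whose elements have a power in the centre. -/
def EngelCentralByPeriodic (E : Type) [Group E] : Prop :=
  IsEngel E ∧ ∀ g : E, ∃ n : ℕ, 1 ≤ n ∧ g ^ n ∈ Subgroup.center E

/-- The commutator subgroup of `E` is periodic. -/
def PeriodicCommutator (E : Type) [Group E] : Prop :=
  ∀ g ∈ commutator E, ∃ n : ℕ, 1 ≤ n ∧ g ^ n = 1

end Pool.Agent.H76.Ext
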