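import Pool.Agent.Lib.H76.Ext.Equiv2

/-!
# Extension of invariant homomorphisms to `ℚ`
-/

set_option autoImplicit false

namespace Pool.Agent.H76.Ext

/-- Invariant homomorphisms to `ℚ` extend. -/
def HomExt : Prop :=
  ∀ (α : Type) (H : Subgroup (FreeGroup α)) [H.Normal],
    IsPeriodic (FreeGroup α ⧸ H) → IsEngel (FreeGroup α ⧸ H) →
    ∀ ψ : H →* Multiplicative ℚ,
      (∀ (g : FreeGroup α) (h k : H), (k : FreeGroup α) = g * h * g⁻¹ → ψ k = ψ h) →
      ∃ χ : FreeGroup α →* Multiplicative ℚ, ∀ h : H, χ h = ψ h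

lemma mulQ_pow_eq_one {q : Multiplicative ℚ} {n : ℕ} (hn : 1 ≤ n) (h : q ^ n = 1) : q = 1 := by
  have h1 : n • Multiplicative.toAdd q = 0 := h
  rw [nsmul_eq_mul] at h1
  rcases mul_eq_zero.1 h1 with h2 | h2
  · have : n = 0 := by exact_mod_cast h2
    omega
  · exact h2

theorem homExt_of (h5 : FreeHopf) : HomExt := by
  intro α H hHn hper heng ψ hψ
  -- `ψ` kills `[H, F]`
  have hkill : ∀ k : H, (k : FreeGroup α) ∈ ⁅H, (⊤ : Subgroup (FreeGroup α))⁆ → ψ k = 1 := by
    intro k hk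
    have h1 : ⁅H, (⊤ : Subgroup (FreeGroup α))⁆ ≤ (ψ.ker).map H.subtype := by
      rw [Subgroup.commutator_le]
      intro u hu v _
      have h2 : v * u * v⁻¹ ∈ H := hHn.conj_mem u hu v
      have h3 := hψ v ⟨u, hu⟩ ⟨v * u * v⁻¹, h2⟩ rfl
      refine ⟨⟨u, hu⟩ * (⟨v * u * v⁻¹, h2⟩ : H)⁻¹, ?_, ?_⟩
      · show ψ _ = 1
        rw [map_mul, map_inv, h3, mul_inv_cancel]
      · rw [commutatorElement_def]
        simp only [Subgroup.subtype_apply]
        push_cast
        group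
    obtain ⟨k', hk', hk''⟩ := h1 hk
    have : k' = k := Subtype.ext hk''
    rwa [this] at hk'
  -- hence the intersection with the commutator subgroup
  have hkill' : ∀ k : H, (k : FreeGroup α) ∈ commutator (FreeGroup α) → ψ k = 1 := by
    intro k hk
    obtain ⟨n, hn, hn'⟩ := h5 α H hper heng k k.2 hk
    apply mulQ_pow_eq_one hn
    rw [← map_pow]
    exact hkill (k ^ n) (by push_cast; exact hn')
  let A := Abelianization (FreeGroup α)
  let q : H →* A := (Abelianization.of : FreeGroup α →* A).comp H.subtype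
  have hq : ∀ h : H, q h = 1 → ψ h = 1 := by
    intro h hh
    apply hkill'
    rw [← Abelianization.ker_of]
    exact hh
  -- descend to the range
  let g₀ : q.range → Multiplicative ℚ := fun r => ψ (Classical.choose r.2)
  have hg₀ : ∀ h : H, g₀ ⟨q h, ⟨h, rfl⟩⟩ = ψ h := by
    intro h
    have h1 : q (Classical.choose (⟨q h, ⟨h, rfl⟩⟩ : q.range).2) = q h :=
      Classical.choose_spec (⟨q h, ⟨h, rfl⟩⟩ : q.range).2
    have h2 : q (Classical.choose (⟨q h, ⟨h, rfl⟩⟩ : q.range).2 * h⁻¹) = 1 := by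
      rw [map_mul, h1, map_inv, mul_inv_cancel]
    have h3 := hq _ h2
    rw [map_mul, map_inv, mul_inv_eq_one] at h3
    exact h3
  have hg₀' : ∀ r s : q.range, g₀ (r * s) = g₀ r * g₀ s := by
    rintro ⟨_, ⟨r, rfl⟩⟩ ⟨_, ⟨s, rfl⟩⟩
    have e : ((⟨q r, ⟨r, rfl⟩⟩ : q.range) * ⟨q s, ⟨s, rfl⟩⟩) = ⟨q (r * s), ⟨r * s, rfl⟩⟩ := by
      apply Subtype.ext
      show q r * q s = q (r * s)
      rw [map_mul]
    rw [e, hg₀, hg₀, hg₀, map_mul]
  let f : Additive q.range →+ Additive A := MonoidHom.toAdditive q.range.subtype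
  have hf : Function.Injective f := fun x y h => Subtype.ext h
  let g₁ : Additive q.range →+ ℚ :=
    { toFun := fun r => Multiplicative.toAdd (g₀ (Additive.toMul r))
      map_zero' := by
        have h1 := hg₀ 1
        have e : (⟨q 1, ⟨1, rfl⟩⟩ : q.range) = 1 := Subtype.ext (map_one q)
        rw [e, map_one] at h1
        show Multiplicative.toAdd (g₀ 1) = 0
        rw [h1]; rfl
      map_add' := by
        intro r s
        show Multiplicative.toAdd (g₀ (Additive.toMul r * Additive.toMul s)) = _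
        rw [hg₀']; rfl }
  obtain ⟨χ₀, hχ₀⟩ := (Module.Baer.of_divisible ℚ).extension_property_addMonoidHom f hf g₁
  refine ⟨{ toFun := fun x => Multiplicative.ofAdd (χ₀ (Additive.ofMul (Abelianization.of x)))
            map_one' := by
              rw [map_one, ofMul_one, map_zero]; rfl
            map_mul' := by
              intro x y
              rw [map_mul, ofMul_mul, map_add]; rfl }, ?_⟩
  intro h
  have h1 := congrArg (fun F : Additive q.range →+ ℚ => F (Additive.ofMul ⟨q h, ⟨h, rfl⟩⟩)) hχ₀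
  have h2 : χ₀ (Additive.ofMul (q h)) = Multiplicative.toAdd (g₀ ⟨q h, ⟨h, rfl⟩⟩) := h1
  rw [hg₀] at h2
  show Multiplicative.ofAdd (χ₀ (Additive.ofMul (Abelianization.of (h : FreeGroup α)))) = ψ h
  have h3 : χ₀ (Additive.ofMul (Abelianization.of (h : FreeGroup α))) =
      Multiplicative.toAdd (ψ h) := h2
  rw [h3]; rfl

theorem freeHopf_of_homExt (h8 : HomExt) : FreeHopf := by
  intro α H hHn hper heng h hh hhc
  by_contra hcon
  push Not at hcon
  set N : Subgroup (FreeGroup α) := ⁅H, (⊤ : Subgroup (FreeGroup α))⁆ with hN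
  have hNn : N.Normal := by rw [hN]; infer_instance
  -- the central image of `H`
  let π := QuotientGroup.mk' N
  have hcomm : ∀ u ∈ H, ∀ g : FreeGroup α, π u * π g = π g * π u := by
    intro u hu g
    rw [← map_mul, ← map_mul]
    have h1 : u * g * u⁻¹ * g⁻¹ ∈ N := Subgroup.commutator_mem_commutator hu (Subgroup.mem_top g)
    have h2 : u * g = (u * g * u⁻¹ * g⁻¹) * (g * u) := by group
    have h3 : π (u * g * u⁻¹ * g⁻¹) = 1 := by
      rw [← MonoidHom.mem_ker, QuotientGroup.ker_mk']; exact h1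
    rw [h2, map_mul π (u * g * u⁻¹ * g⁻¹), h3, one_mul]
  let Z := H.map π
  let _ : CommGroup Z :=
    { (inferInstance : Group Z) with
      mul_comm := by
        rintro ⟨_, ⟨a, ha, rfl⟩⟩ ⟨_, ⟨b, hb, rfl⟩⟩
        apply Subtype.ext
        exact hcomm a ha b }
  obtain ⟨ψ₀, hψ₀, hne⟩ := exists_hom_ne (⟨π h, ⟨h, hh, rfl⟩⟩ : Z) (by
    intro n hn hz
    have h1 : (π h) ^ n = 1 := congrArg (fun z : Z => (z : FreeGroup α ⧸ N)) hz
    rw [← map_pow, ← MonoidHom.mem_ker, QuotientGroup.ker_mk'] at h1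
    exact hcon n hn h1)
  have hψ1 : ψ₀ 1 = 0 := by
    have := hψ₀ 1 1
    rw [mul_one] at this
    linarith
  let ψ : H →* Multiplicative ℚ :=
    { toFun := fun u => Multiplicative.ofAdd (ψ₀ ⟨π u, ⟨u, u.2, rfl⟩⟩)
      map_one' := by
        have e : (⟨π ((1 : H) : FreeGroup α), ⟨_, (1 : H).2, rfl⟩⟩ : Z) = 1 :=
          Subtype.ext (by simp)
        rw [e, hψ1]; rfl
      map_mul' := by
        intro u v
        have e : (⟨π ((u * v : H) : FreeGroup α), ⟨_, (u * v : H).2, rfl⟩⟩ : Z) =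
            ⟨π u, ⟨u, u.2, rfl⟩⟩ * ⟨π v, ⟨v, v.2, rfl⟩⟩ :=
          Subtype.ext (by simp)
        rw [e, hψ₀]; rfl }
  obtain ⟨χ, hχ⟩ := h8 α H hper heng ψ (by
    intro g u v huv
    have e : (⟨π v, ⟨v, v.2, rfl⟩⟩ : Z) = ⟨π u, ⟨u, u.2, rfl⟩⟩ := by
      apply Subtype.ext
      show π v = π u
      rw [huv, map_mul, map_mul, ← hcomm u u.2 g, mul_assoc, ← map_mul, mul_inv_cancel, map_one,
        mul_one]
    show Multiplicative.ofAdd (ψ₀ ⟨π v, ⟨v, v.2, rfl⟩⟩) =
      Multiplicative.ofAdd (ψ₀ ⟨π u, ⟨u, u.2, rfl⟩⟩)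
    rw [e])
  have h1 : χ h = 1 := (Abelianization.commutator_subset_ker χ) hhc
  have h2 := hχ ⟨h, hh⟩
  simp only at h2
  rw [h1] at h2
  apply hne
  exact h2.symm

end Pool.Agent.H76.Ext
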