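import Pool.Agent.Lib.H76.Ext.Defs

/-!
# A bi-invariant order on the free group of rank two
-/

set_option autoImplicit false

open Polynomial

namespace Pool.Agent.H76.Ext

section generalRing

variable {R : Type*} [Ring R]

/-- The unit `1 + N` for a square zero element `N`. -/
def oneAdd (N : R) (h : N * N = 0) : Rˣ where
  val := 1 + N
  inv := 1 - N
  val_inv := by
    have : (1 + N) * (1 - N) = 1 - N * N := by
      rw [mul_sub, add_mul, add_mul, mul_one, mul_one, one_mul]; abel
    rw [this, h, sub_zero]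
  inv_val := by
    have : (1 - N) * (1 + N) = 1 - N * N := by
      rw [mul_add, sub_mul, sub_mul, mul_one, mul_one, one_mul]; abel
    rw [this, h, sub_zero]

lemma oneAdd_pow (N : R) (h : N * N = 0) (n : ℕ) :
    ((oneAdd N h ^ n : Rˣ) : R) = 1 + (n : R) * N := by
  induction n with
  | zero => simp
  | succ n ih =>
    rw [pow_succ, Units.val_mul, ih]
    show (1 + (n : R) * N) * (1 + N) = _
    rw [mul_add, mul_one, add_mul, one_mul, mul_assoc, h, mul_zero, add_zero]
    push_cast
    rw [add_mul, one_mul]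
    abel

lemma oneAdd_inv_pow (N : R) (h : N * N = 0) (n : ℕ) :
    (((oneAdd N h)⁻¹ ^ n : Rˣ) : R) = 1 - (n : R) * N := by
  induction n with
  | zero => simp
  | succ n ih =>
    rw [pow_succ, Units.val_mul, ih]
    show (1 - (n : R) * N) * (1 - N) = _
    rw [mul_sub, mul_one, sub_mul, one_mul, mul_assoc, h, mul_zero, sub_zero]
    push_cast
    rw [add_mul, one_mul]
    abel

lemma oneAdd_zpow (N : R) (h : N * N = 0) (n : ℤ) :
    ((oneAdd N h ^ n : Rˣ) : R) = 1 + (n : R) * N := by
  rcases Int.eq_nat_or_neg n with ⟨k, rfl | rfl⟩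
  · rw [zpow_natCast, oneAdd_pow]; simp
  · rw [zpow_neg, zpow_natCast, ← inv_pow, oneAdd_inv_pow]
    push_cast
    rw [neg_mul, sub_eq_add_neg]

lemma CX_sq (N : R) (h : N * N = 0) : C N * X * (C N * X) = (0 : R[X]) := by
  rw [mul_assoc, ← mul_assoc X, X_mul_C, mul_assoc, ← mul_assoc, ← C_mul, h, C_0, zero_mul]

end generalRing

/-- The endomorphism ring of `ℚ²`. -/
abbrev R2 : Type := Module.End ℚ (ℚ × ℚ)

/-- First nilpotent endomorphism. -/
def N20 : R2 where
  toFun := fun p => (2 * p.2, 0)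
  map_add' := by intro p q; ext <;> simp; ring
  map_smul' := by intro c p; ext <;> simp; ring

/-- Second nilpotent endomorphism. -/
def N21 : R2 where
  toFun := fun p => (0, 2 * p.1)
  map_add' := by intro p q; ext <;> simp; ring
  map_smul' := by intro c p; ext <;> simp; ring

/-- Two nilpotent endomorphisms. -/
def N2 (i : Fin 2) : R2 := if i = 0 then N20 else N21

lemma N20_apply (p : ℚ × ℚ) : N20 p = (2 * p.2, 0) := rfl
lemma N21_apply (p : ℚ × ℚ) : N21 p = (0, 2 * p.1) := rfl

lemma N2_sq (i : Fin 2) : N2 i * N2 i = 0 := by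
  apply LinearMap.ext
  rintro ⟨u, v⟩
  fin_cases i
  · show N20 (N20 (u, v)) = 0
    rw [N20_apply, N20_apply]; simp
  · show N21 (N21 (u, v)) = 0
    rw [N21_apply, N21_apply]; simp

/-- The images of the generators. -/
noncomputable def gen2 (i : Fin 2) : (R2[X])ˣ := oneAdd (C (N2 i) * X) (CX_sq _ (N2_sq i))

/-- The Magnus type representation. -/
noncomputable def phi2 : FreeGroup (Fin 2) →* (R2[X])ˣ := FreeGroup.lift gen2

/-- Evaluation at `X = 1`. -/
noncomputable def ev2 : R2[X] →+* R2 :=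
  Polynomial.eval₂RingHom' (RingHom.id R2) 1 (fun _ => Commute.one_right _)

/-- The Sanov generators. -/
def a2 (i : Fin 2) : R2ˣ := oneAdd (N2 i) (N2_sq i)

lemma ev2_gen (i : Fin 2) : (Units.map (ev2 : R2[X] →* R2)) (gen2 i) = a2 i := by
  apply Units.ext
  show ev2 (1 + C (N2 i) * X) = 1 + N2 i
  simp [ev2]

lemma lift_a2_injective : Function.Injective
    (FreeGroup.lift a2 : FreeGroup (Fin 2) →* R2ˣ) := by
  have h0 : FreeGroup.lift a2 =
      (Monoid.CoprodI.lift fun i => FreeGroup.lift fun _ => a2 i).comp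
        (@freeGroupEquivCoprodI (Fin 2)).toMonoidHom := by
    apply FreeGroup.ext_hom
    intro i
    simp
  rw [h0, MonoidHom.coe_comp]
  refine Function.Injective.comp ?_ (MulEquiv.injective freeGroupEquivCoprodI)
  change Function.Injective (Monoid.CoprodI.lift fun i : Fin 2 => FreeGroup.lift fun _ => a2 i)
  let H : Fin 2 → Type _ := fun _i => FreeGroup Unit
  let f : ∀ i, H i →* R2ˣ := fun i => FreeGroup.lift fun _ => a2 i
  let X' : Fin 2 → Set (ℚ × ℚ) := fun i =>
    if i = 0 then {p | |p.2| < |p.1|} else {p | |p.1| < |p.2|}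
  open scoped Pointwise in
  apply Monoid.CoprodI.lift_injective_of_ping_pong f _ X'
  · intro i
    fin_cases i
    · exact ⟨(1, 0), by simp [X']⟩
    · exact ⟨(0, 1), by simp [X']⟩
  · intro i j hij
    rw [Function.onFun, Set.disjoint_left]
    intro p hp hp'
    fin_cases i <;> fin_cases j <;> simp [X'] at hp hp' hij <;> linarith
  · open scoped Pointwise in
    change Pairwise fun i j => ∀ h : H i, h ≠ 1 → f i h • X' j ⊆ X' i
    rintro i j hij
    refine FreeGroup.freeGroupUnitEquivInt.forall_congr_left.mpr ?_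
    intro n hne1
    change FreeGroup.lift (fun _ => a2 i) (FreeGroup.of () ^ n) • X' j ⊆ X' i
    simp only [map_zpow, FreeGroup.lift_apply_of]
    change a2 i ^ n • X' j ⊆ X' i
    have hnne0 : n ≠ 0 := by
      rintro rfl
      apply hne1
      simp [H, FreeGroup.freeGroupUnitEquivInt]
    rintro _ ⟨⟨u, v⟩, hp, rfl⟩
    have h1 : (a2 i ^ n • ((u, v) : ℚ × ℚ)) = (1 + (n : R2) * N2 i) (u, v) := by
      rw [← oneAdd_zpow (N2 i) (N2_sq i)]; rfl
    have h2 : (1 : ℚ) ≤ |(n : ℚ)| := by
      have : (1 : ℤ) ≤ |n| := Int.one_le_abs hnne0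
      exact_mod_cast this
    show (a2 i ^ n • ((u, v) : ℚ × ℚ)) ∈ X' i
    rw [h1]
    have h3 : ∀ q : ℚ × ℚ, (n : R2) q = ((n : ℚ) * q.1, (n : ℚ) * q.2) := by
      intro q
      have : (n : R2) q = (n : ℤ) • q := by
        simp
      rw [this]
      ext <;> simp
    fin_cases i <;> fin_cases j
    · exact absurd rfl hij
    · have h4 : (1 + (n : R2) * N2 0) (u, v) = (u + n * (2 * v), v) := by
        show (u, v) + (n : R2) (N20 (u, v)) = _
        rw [h3, N20_apply]
        ext <;> simp
      simp only [Fin.zero_eta, Fin.mk_one] at hp ⊢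
      rw [h4]
      have hp' : |u| < |v| := by simpa [X'] using hp
      show |v| < |u + n * (2 * v)|
      have h5 : |n * (2 * v)| = 2 * (|(n : ℚ)| * |v|) := by
        rw [abs_mul, abs_mul, abs_of_pos (by norm_num : (0 : ℚ) < 2)]; ring
      have h6 : |v| ≤ |(n : ℚ)| * |v| := le_mul_of_one_le_left (abs_nonneg v) h2
      have h7 : |n * (2 * v)| ≤ |u + n * (2 * v)| + |u| := by
        have := abs_add_le (u + n * (2 * v)) (-u)
        rw [abs_neg] at this
        calc |n * (2 * v)| = |u + n * (2 * v) + -u| := by ring_nf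
          _ ≤ _ := this
      linarith
    · have h4 : (1 + (n : R2) * N2 1) (u, v) = (u, v + n * (2 * u)) := by
        show (u, v) + (n : R2) (N21 (u, v)) = _
        rw [h3, N21_apply]
        ext <;> simp
      simp only [Fin.zero_eta, Fin.mk_one] at hp ⊢
      rw [h4]
      have hp' : |v| < |u| := by simpa [X'] using hp
      show |u| < |v + n * (2 * u)|
      have h5 : |n * (2 * u)| = 2 * (|(n : ℚ)| * |u|) := by
        rw [abs_mul, abs_mul, abs_of_pos (by norm_num : (0 : ℚ) < 2)]; ring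
      have h6 : |u| ≤ |(n : ℚ)| * |u| := le_mul_of_one_le_left (abs_nonneg u) h2
      have h7 : |n * (2 * u)| ≤ |v + n * (2 * u)| + |v| := by
        have := abs_add_le (v + n * (2 * u)) (-v)
        rw [abs_neg] at this
        calc |n * (2 * u)| = |v + n * (2 * u) + -v| := by ring_nf
          _ ≤ _ := this
      linarith
    · exact absurd rfl hij
  · show _ ∨ ∃ i, 3 ≤ Cardinal.mk (H i)
    right
    use 0
    simp only [H]
    rw [FreeGroup.freeGroupUnitEquivInt.cardinal_eq, Cardinal.mk_denumerable]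
    exact Cardinal.natCast_le_aleph0

lemma phi2_injective : Function.Injective phi2 := by
  have h : (Units.map (ev2 : R2[X] →* R2)).comp phi2 = FreeGroup.lift a2 := by
    apply FreeGroup.ext_hom
    intro i
    simp only [phi2, MonoidHom.comp_apply, FreeGroup.lift_apply_of]
    exact ev2_gen i
  have h1 := lift_a2_injective
  rw [← h, MonoidHom.coe_comp] at h1
  exact h1.of_comp

/-! ### Positivity -/

/-- Lexicographic positivity of quadruples. -/
def lexPos (a b c d : ℚ) : Prop :=
  0 < a ∨ (a = 0 ∧ (0 < b ∨ (b = 0 ∧ (0 < c ∨ (c = 0 ∧ 0 < d)))))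

/-- A positive cone on the additive group of `R2`. -/
def posR (T : R2) : Prop := lexPos (T (1, 0)).1 (T (1, 0)).2 (T (0, 1)).1 (T (0, 1)).2

lemma posR_add {S T : R2} (hS : posR S) (hT : posR T) : posR (S + T) := by
  unfold posR lexPos at *
  simp only [LinearMap.add_apply, Prod.fst_add, Prod.snd_add]
  rcases hS with h | ⟨h, h | ⟨h', h | ⟨h'', h⟩⟩⟩ <;>
    rcases hT with k | ⟨k, k | ⟨k', k | ⟨k'', k⟩⟩⟩
  · left; linarith
  · left; linarith
  · left; linarith
  · left; linarith
  · left; linarith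
  all_goals first
    | (left; linarith)
    | (right; refine ⟨by linarith, ?_⟩; left; linarith)
    | (right; refine ⟨by linarith, ?_⟩; right; refine ⟨by linarith, ?_⟩; left; linarith)
    | (right; refine ⟨by linarith, ?_⟩; right; refine ⟨by linarith, ?_⟩; right
       refine ⟨by linarith, ?_⟩; linarith)

lemma not_posR_zero : ¬ posR 0 := by
  unfold posR lexPos
  simp

lemma posR_or {T : R2} (hT : T ≠ 0) : posR T ∨ posR (-T) := by
  unfold posR lexPos
  simp only [LinearMap.neg_apply, Prod.fst_neg, Prod.snd_neg]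
  have h0 : ¬ ((T (1, 0)).1 = 0 ∧ (T (1, 0)).2 = 0 ∧ (T (0, 1)).1 = 0 ∧ (T (0, 1)).2 = 0) := by
    rintro ⟨h1, h2, h3, h4⟩
    apply hT
    apply LinearMap.ext
    rintro ⟨u, v⟩
    have e : ((u, v) : ℚ × ℚ) = u • ((1, 0) : ℚ × ℚ) + v • ((0, 1) : ℚ × ℚ) := by
      ext <;> simp
    have e1 : T (1, 0) = 0 := Prod.ext h1 h2
    have e2 : T (0, 1) = 0 := Prod.ext h3 h4
    rw [e, map_add, map_smul, map_smul, e1, e2]
    simp
  rcases lt_trichotomy (T (1, 0)).1 0 with h | h | h
  · right; left; linarith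
  · rcases lt_trichotomy (T (1, 0)).2 0 with k | k | k
    · right; right; exact ⟨by linarith, Or.inl (by linarith)⟩
    · rcases lt_trichotomy (T (0, 1)).1 0 with l | l | l
      · right; right; exact ⟨by linarith, Or.inr ⟨by linarith, Or.inl (by linarith)⟩⟩
      · rcases lt_trichotomy (T (0, 1)).2 0 with m | m | m
        · right; right
          exact ⟨by linarith, Or.inr ⟨by linarith, Or.inr ⟨by linarith, by linarith⟩⟩⟩
        · exact absurd ⟨h, k, l, m⟩ h0
        · left; right; exact ⟨h, Or.inr ⟨k, Or.inr ⟨l, m⟩⟩⟩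
      · left; right; exact ⟨h, Or.inr ⟨k, Or.inl l⟩⟩
    · left; right; exact ⟨h, Or.inl k⟩
  · left; left; exact h

section cone

variable {R : Type*} [Ring R]

/-- `p` vanishes below degree `i`. -/
def Van (i : ℕ) (p : R[X]) : Prop := ∀ j < i, p.coeff j = 0

lemma Van.mul {i k : ℕ} {p q : R[X]} (hp : Van i p) (hq : Van k q) : Van (i + k) (p * q) := by
  intro n hn
  rw [coeff_mul]
  apply Finset.sum_eq_zero
  rintro ⟨a, b⟩ hab
  have hab' : a + b = n := by simpa using hab
  simp only
  rcases lt_or_ge a i with h | h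
  · rw [hp a h, zero_mul]
  · rw [hq b (by omega), mul_zero]

lemma Van.mono {i k : ℕ} {p : R[X]} (hp : Van i p) (h : k ≤ i) : Van k p :=
  fun j hj => hp j (by omega)

lemma Van.add {i : ℕ} {p q : R[X]} (hp : Van i p) (hq : Van i q) : Van i (p + q) := by
  intro j hj
  rw [coeff_add, hp j hj, hq j hj, add_zero]

lemma Van.neg {i : ℕ} {p : R[X]} (hp : Van i p) : Van i (-p) := by
  intro j hj
  rw [coeff_neg, hp j hj, neg_zero]


variable {F : Type} [Group F] (φ : F →* (R[X])ˣ) (pos : R → Prop)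

/-- The Magnus cone. -/
def magnusCone : Set F :=
  {g | ∃ i : ℕ, Van i ((φ g : R[X]) - 1) ∧ pos (((φ g : R[X]) - 1).coeff i)}

lemma magnus_lead {g h : F} {i : ℕ}
    (e : Van (i + 1) (((φ g : R[X]) - 1) - ((φ h : R[X]) - 1)))
    (hh : Van i ((φ h : R[X]) - 1)) :
    Van i ((φ g : R[X]) - 1) ∧
      ((φ g : R[X]) - 1).coeff i = ((φ h : R[X]) - 1).coeff i := by
  have e1 : ((φ g : R[X]) - 1) = (((φ g : R[X]) - 1) - ((φ h : R[X]) - 1)) +
      ((φ h : R[X]) - 1) := by abel
  constructor
  · rw [e1]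
    exact (e.mono (by omega)).add hh
  · rw [e1, coeff_add, e i (by omega), zero_add]

theorem magnusCone_isInvCone (hφ : Function.Injective φ)
    (hφ0 : ∀ g, Van 1 ((φ g : R[X]) - 1))
    (hadd : ∀ {S T : R}, pos S → pos T → pos (S + T)) (hzero : ¬ pos 0)
    (hor : ∀ {T : R}, T ≠ 0 → pos T ∨ pos (-T)) :
    IsInvCone (⊤ : Subgroup F) (magnusCone φ pos) := by
  refine ⟨fun _ _ => trivial, ?_, ?_, ?_, ?_⟩
  · rintro x y ⟨i, hi, hi'⟩ ⟨k, hk, hk'⟩
    have e : ((φ (x * y) : (R[X])ˣ) : R[X]) - 1 =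
        ((φ x : R[X]) - 1) * ((φ y : R[X]) - 1) + ((φ x : R[X]) - 1) +
          ((φ y : R[X]) - 1) := by
      rw [map_mul, Units.val_mul, sub_mul, mul_sub, mul_one, one_mul]; abel
    have hi1 : 1 ≤ i := by
      by_contra hcon
      obtain rfl : i = 0 := by omega
      rw [hφ0 x 0 (by omega)] at hi'
      exact hzero hi'
    have hk1 : 1 ≤ k := by
      by_contra hcon
      obtain rfl : k = 0 := by omega
      rw [hφ0 y 0 (by omega)] at hk'
      exact hzero hk'
    have hpq := hi.mul hk
    rcases lt_trichotomy i k with h | h | h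
    · refine ⟨i, ?_, ?_⟩
      · rw [e]
        exact ((hpq.mono (by omega)).add hi).add (hk.mono (by omega))
      · rw [e, coeff_add, coeff_add, hpq i (by omega), hk i (by omega), zero_add, add_zero]
        exact hi'
    · subst h
      refine ⟨i, ?_, ?_⟩
      · rw [e]
        exact ((hpq.mono (by omega)).add hi).add hk
      · rw [e, coeff_add, coeff_add, hpq i (by omega), zero_add]
        exact hadd hi' hk'
    · refine ⟨k, ?_, ?_⟩
      · rw [e]
        exact ((hpq.mono (by omega)).add (hi.mono (by omega))).add hk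
      · rw [e, coeff_add, coeff_add, hpq k (by omega), hi k (by omega), zero_add, zero_add]
        exact hk'
  · rintro ⟨i, -, hi'⟩
    rw [map_one, Units.val_one, sub_self, coeff_zero] at hi'
    exact hzero hi'
  · intro x _ hx
    have hne : ((φ x : R[X]) - 1) ≠ 0 := by
      intro h
      apply hx
      apply hφ
      rw [map_one]
      apply Units.ext
      rw [Units.val_one]
      exact sub_eq_zero.1 h
    have hex : ∃ i, ((φ x : R[X]) - 1).coeff i ≠ 0 := by
      by_contra hcon
      push Not at hcon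
      exact hne (Polynomial.ext (by simpa using hcon))
    classical
    set i := Nat.find hex with hi
    have hi1 : Van i ((φ x : R[X]) - 1) := by
      intro j hj
      have := Nat.find_min hex hj
      push Not at this
      exact this
    rcases hor (Nat.find_spec hex) with h | h
    · left; exact ⟨i, hi1, h⟩
    · right
      have e : ((φ x⁻¹ : (R[X])ˣ) : R[X]) - 1 =
          -(((φ x⁻¹ : (R[X])ˣ) : R[X]) - 1) * ((φ x : R[X]) - 1) +
            -((φ x : R[X]) - 1) := by
        have h1 : ((φ x⁻¹ : (R[X])ˣ) : R[X]) * (φ x : R[X]) = 1 := by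
          rw [← Units.val_mul, ← map_mul, inv_mul_cancel, map_one, Units.val_one]
        rw [neg_mul, sub_mul, mul_sub, h1, mul_one, one_mul]
        abel
      have h2 : Van (1 + i) (-(((φ x⁻¹ : (R[X])ˣ) : R[X]) - 1) * ((φ x : R[X]) - 1)) :=
        (hφ0 x⁻¹).neg.mul hi1
      refine ⟨i, ?_, ?_⟩
      · rw [e]
        exact (h2.mono (by omega)).add hi1.neg
      · rw [e, coeff_add, h2 i (by omega), zero_add, coeff_neg]
        exact h
  · rintro g x ⟨i, hi, hi'⟩
    have e : (((φ (g * x * g⁻¹) : (R[X])ˣ) : R[X]) - 1) - ((φ x : R[X]) - 1) =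
        ((φ g : R[X]) - 1) * ((φ x : R[X]) - 1) * (φ g⁻¹ : R[X]) +
          ((φ x : R[X]) - 1) * ((φ g⁻¹ : R[X]) - 1) := by
      have h1 : (φ g : R[X]) * (φ g⁻¹ : R[X]) = 1 := by
        rw [← Units.val_mul, ← map_mul, mul_inv_cancel, map_one, Units.val_one]
      rw [map_mul, map_mul, Units.val_mul, Units.val_mul]
      have h2 : ((φ g : R[X]) - 1) * ((φ x : R[X]) - 1) * (φ g⁻¹ : R[X]) +
          ((φ x : R[X]) - 1) * ((φ g⁻¹ : R[X]) - 1) =
          (φ g : R[X]) * (φ x : R[X]) * (φ g⁻¹ : R[X]) -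
            (φ g : R[X]) * (φ g⁻¹ : R[X]) - ((φ x : R[X]) - 1) := by
        simp only [sub_mul, mul_sub, mul_one, one_mul]
        abel
      rw [h2, h1]
    have hv : Van (i + 1) ((((φ (g * x * g⁻¹) : (R[X])ˣ) : R[X]) - 1) -
        ((φ x : R[X]) - 1)) := by
      rw [e]
      have h1 : Van (1 + i + 0) (((φ g : R[X]) - 1) * ((φ x : R[X]) - 1) *
          (φ g⁻¹ : R[X])) :=
        ((hφ0 g).mul hi).mul (fun j hj => absurd hj (by omega))
      have h2 : Van (i + 1) (((φ x : R[X]) - 1) * ((φ g⁻¹ : R[X]) - 1)) :=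
        hi.mul (hφ0 g⁻¹)
      exact (h1.mono (by omega)).add h2
    obtain ⟨h1, h2⟩ := magnus_lead φ hv hi
    exact ⟨i, h1, by rw [h2]; exact hi'⟩

end cone

lemma phi2_coeff_zero (g : FreeGroup (Fin 2)) : Van 1 ((phi2 g : R2[X]) - 1) := by
  have key : ∀ g : FreeGroup (Fin 2), ((phi2 g : R2[X])).coeff 0 = 1 := by
    intro g
    have h : (Units.map ((constantCoeff : R2[X] →+* R2) : R2[X] →* R2)).comp phi2 = 1 := by
      apply FreeGroup.ext_hom
      intro i
      apply Units.ext
      simp only [phi2, MonoidHom.comp_apply, FreeGroup.lift_apply_of]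
      show constantCoeff (1 + C (N2 i) * X) = 1
      simp
    have := congrArg (fun f : FreeGroup (Fin 2) →* R2ˣ => ((f g : R2ˣ) : R2)) h
    simpa using this
  intro j hj
  obtain rfl : j = 0 := by omega
  rw [coeff_sub, key g, coeff_one_zero]
  exact sub_self _

/-- The free group of rank two is orderable. -/
theorem exists_cone_free2 : ∃ P : Set (FreeGroup (Fin 2)),
    IsInvCone (⊤ : Subgroup (FreeGroup (Fin 2))) P :=
  ⟨magnusCone phi2 posR, magnusCone_isInvCone phi2 posR phi2_injective phi2_coeff_zero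
    posR_add not_posR_zero posR_or⟩

end Pool.Agent.H76.Ext
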