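import Pool.Agent.Lib.H76.Ext.Equiv

/-!
# Equivalence of the extension problem with a problem about Engel groups, second part
-/

set_option autoImplicit false

namespace Pool.Agent.H76.Ext

lemma isPeriodic_quotient {G : Type} [Group G] (H : Subgroup G) [H.Normal] :
    IsPeriodic (G ⧸ H) ↔ ∀ g : G, ∃ n : ℕ, 1 ≤ n ∧ g ^ n ∈ H := by
  constructor
  · intro h g
    obtain ⟨n, hn, hn'⟩ := h (QuotientGroup.mk' H g)
    refine ⟨n, hn, ?_⟩
    rw [← map_pow, ← MonoidHom.mem_ker, QuotientGroup.ker_mk'] at hn'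
    exact hn'
  · intro h g
    obtain ⟨g, rfl⟩ := QuotientGroup.mk'_surjective H g
    obtain ⟨n, hn, hn'⟩ := h g
    refine ⟨n, hn, ?_⟩
    rw [← map_pow, ← MonoidHom.mem_ker, QuotientGroup.ker_mk']
    exact hn'

lemma isEngel_quotient {G : Type} [Group G] (H : Subgroup G) [H.Normal] :
    IsEngel (G ⧸ H) ↔ ∀ x y : G, ∃ n : ℕ, engelComm x y n ∈ H := by
  constructor
  · intro h x y
    obtain ⟨n, -, hn'⟩ := h (QuotientGroup.mk' H x) (QuotientGroup.mk' H y)
    refine ⟨n, ?_⟩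
    rw [← map_engelComm, ← MonoidHom.mem_ker, QuotientGroup.ker_mk'] at hn'
    exact hn'
  · intro h x y
    obtain ⟨x, rfl⟩ := QuotientGroup.mk'_surjective H x
    obtain ⟨y, rfl⟩ := QuotientGroup.mk'_surjective H y
    obtain ⟨n, hn⟩ := h x y
    refine ⟨n + 1, by omega, ?_⟩
    have h1 : QuotientGroup.mk' H (engelComm x y n) = 1 := by
      rw [← MonoidHom.mem_ker, QuotientGroup.ker_mk']; exact hn
    rw [engelComm_succ, ← map_engelComm, h1, comm]
    group

/-- The extension property for the free group of rank two implies the statement for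
`2`-generated Engel central-by-periodic groups. -/
theorem two_of_ext (h2 : ExtProp (FreeGroup (Fin 2)))
    (E : Type) [Group E] (hgen : ∃ a b : E, Subgroup.closure {a, b} = ⊤)
    (hE : EngelCentralByPeriodic E) : PeriodicCommutator E := by
  intro c hc
  by_contra hcon
  push Not at hcon
  obtain ⟨m, hm, hcm⟩ := hE.2 c
  let _ : CommGroup (Subgroup.center E) :=
    { (inferInstance : Group (Subgroup.center E)) with
      mul_comm := fun a b => Subtype.ext ((Subgroup.mem_center_iff.1 b.2) a) }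
  obtain ⟨ψ₀, hψ₀, hne⟩ := exists_hom_ne (⟨c ^ m, hcm⟩ : Subgroup.center E) (by
    intro n hn h
    have h1 := congrArg (fun z : Subgroup.center E => (z : E)) h
    simp only [SubmonoidClass.mk_pow, OneMemClass.coe_one] at h1
    rw [← pow_mul] at h1
    exact hcon (m * n) (Nat.mul_pos hm hn) h1)
  classical
  set ψ : E → ℚ := fun g => if hg : g ∈ Subgroup.center E then ψ₀ ⟨g, hg⟩ else 0 with hψdef
  have hψ' : ∀ g (hg : g ∈ Subgroup.center E), ψ g = ψ₀ ⟨g, hg⟩ := by
    intro g hg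
    rw [hψdef]
    simp only [dif_pos hg]
  have hψ : ∀ x ∈ Subgroup.center E, ∀ y ∈ Subgroup.center E, ψ (x * y) = ψ x + ψ y := by
    intro x hx y hy
    rw [hψ' x hx, hψ' y hy, hψ' _ (Subgroup.mul_mem _ hx hy), ← hψ₀]
    rfl
  apply hne
  rw [← hψ' (c ^ m) hcm]
  refine psi_eq_zero_of_additive hE.2 hψ ?_ hc hm hcm
  -- the free group
  obtain ⟨a, b, hab⟩ := hgen
  let π : FreeGroup (Fin 2) →* E := FreeGroup.lift ![a, b]
  have hπ : Function.Surjective π := by
    rw [← MonoidHom.range_eq_top, eq_top_iff, ← hab, Subgroup.closure_le]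
    rintro z (rfl | hz)
    · exact ⟨FreeGroup.of 0, by simp [π]⟩
    · rw [Set.mem_singleton_iff] at hz
      subst hz
      exact ⟨FreeGroup.of 1, by simp [π]⟩
  set H : Subgroup (FreeGroup (Fin 2)) := (Subgroup.center E).comap π with hH
  have hHn : H.Normal := by rw [hH]; infer_instance
  have hHper : IsPeriodic (FreeGroup (Fin 2) ⧸ H) := by
    rw [isPeriodic_quotient]
    intro g
    obtain ⟨n, hn, hn'⟩ := hE.2 (π g)
    exact ⟨n, hn, by rw [hH, Subgroup.mem_comap, map_pow]; exact hn'⟩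
  have hHeng : IsEngel (FreeGroup (Fin 2) ⧸ H) := by
    rw [isEngel_quotient]
    intro x y
    obtain ⟨n, -, hn'⟩ := hE.1 (π x) (π y)
    refine ⟨n, ?_⟩
    rw [hH, Subgroup.mem_comap, map_engelComm, hn']
    exact Subgroup.one_mem _
  obtain ⟨P₀, hP₀⟩ := exists_cone_free2
  have hψinv : ∀ x ∈ Subgroup.center E, ψ (x⁻¹) = - ψ x := by
    intro x hx
    have h3 := hψ x hx x⁻¹ (Subgroup.inv_mem _ hx)
    rw [mul_inv_cancel, psi_one hψ] at h3
    linarith
  have hP : IsInvCone H {h | h ∈ H ∧ (0 < ψ (π h) ∨ (ψ (π h) = 0 ∧ h ∈ P₀))} := by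
    refine ⟨?_, ?_, ?_, ?_, ?_⟩
    · rintro x ⟨hx, -⟩; exact hx
    · rintro x y ⟨hx, hx'⟩ ⟨hy, hy'⟩
      refine ⟨H.mul_mem hx hy, ?_⟩
      rw [map_mul, hψ _ hx _ hy]
      rcases hx' with hx' | ⟨hx', hx''⟩ <;> rcases hy' with hy' | ⟨hy', hy''⟩
      · left; linarith
      · left; linarith
      · left; linarith
      · right; exact ⟨by linarith, hP₀.mul _ _ hx'' hy''⟩
    · rintro ⟨-, h | ⟨-, h⟩⟩
      · rw [map_one, psi_one hψ] at h
        exact lt_irrefl _ h
      · exact hP₀.one h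
    · intro x hx hx1
      rcases lt_trichotomy 0 (ψ (π x)) with h | h | h
      · left; exact ⟨hx, Or.inl h⟩
      · rcases hP₀.tot x trivial hx1 with h' | h'
        · left; exact ⟨hx, Or.inr ⟨h.symm, h'⟩⟩
        · right
          refine ⟨H.inv_mem hx, Or.inr ⟨?_, h'⟩⟩
          rw [map_inv, hψinv _ hx, ← h, neg_zero]
      · right
        refine ⟨H.inv_mem hx, Or.inl ?_⟩
        rw [map_inv, hψinv _ hx]
        linarith
    · rintro g x ⟨hx, hx'⟩
      have e : π (g * x * g⁻¹) = π x := by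
        rw [map_mul, map_mul, map_inv, (Subgroup.mem_center_iff.1 hx) (π g)]
        group
      refine ⟨hHn.conj_mem x hx g, ?_⟩
      rw [e]
      rcases hx' with hx' | ⟨hx', hx''⟩
      · left; exact hx'
      · right; exact ⟨hx', hP₀.conj _ _ hx''⟩
  obtain ⟨Q, hQ, hPQ⟩ := h2 H hHper hHeng _ hP
  -- the order makes `ψ` monotone
  have hmono : ∀ u v : FreeGroup (Fin 2), u ∈ H → v ∈ H → leQ Q u v → ψ (π u) ≤ ψ (π v) := by
    intro u v hu hv huv
    rcases huv with rfl | huv
    · exact le_refl _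
    · have h1 : u⁻¹ * v ∈ Q ∩ H := ⟨huv, H.mul_mem (H.inv_mem hu) hv⟩
      rw [← hPQ] at h1
      obtain ⟨-, h1⟩ := h1
      have h3 : ψ (π (u⁻¹ * v)) = ψ (π v) - ψ (π u) := by
        rw [map_mul, map_inv, hψ _ (Subgroup.inv_mem _ hu) _ hv, hψinv _ hu]
        ring
      rw [h3] at h1
      rcases h1 with h1 | ⟨h1, -⟩ <;> linarith
  -- additivity of `lam`
  have key : ∀ x y : FreeGroup (Fin 2), leQ Q (y * x) (x * y) →
      lam hE.2 ψ (π (x * y)) = lam hE.2 ψ (π x) + lam hE.2 ψ (π y) ∧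
      lam hE.2 ψ (π (y * x)) = lam hE.2 ψ (π x) + lam hE.2 ψ (π y) := by
    intro x y hxy
    have hper := (isPeriodic_quotient H).1 hHper
    obtain ⟨i, hi, hi'⟩ := hper x
    obtain ⟨j, hj, hj'⟩ := hper y
    obtain ⟨k, hk, hk'⟩ := hper (x * y)
    obtain ⟨l, hl, hl'⟩ := hper (y * x)
    set n := i * j * k * l with hn
    have hn1 : 1 ≤ n := Nat.mul_pos (Nat.mul_pos (Nat.mul_pos hi hj) hk) hl
    have hx : x ^ n ∈ H := by
      have : n = i * (j * k * l) := by rw [hn]; ring
      rw [this, pow_mul]; exact H.pow_mem hi' _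
    have hy : y ^ n ∈ H := by
      have : n = j * (i * k * l) := by rw [hn]; ring
      rw [this, pow_mul]; exact H.pow_mem hj' _
    have hxy' : (x * y) ^ n ∈ H := by
      have : n = k * (i * j * l) := by rw [hn]; ring
      rw [this, pow_mul]; exact H.pow_mem hk' _
    have hyx' : (y * x) ^ n ∈ H := by
      have : n = l * (i * j * k) := by rw [hn]; ring
      rw [this, pow_mul]; exact H.pow_mem hl' _
    have hb := leQ_mul_pow hQ hxy n
    have h1 := hmono _ _ hxy' (H.mul_mem hx hy) hb.1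
    have h2 := hmono _ _ (H.mul_mem hy hx) hxy' hb.2
    have h3 : ψ (π (x ^ n * y ^ n)) = ψ (π (x ^ n)) + ψ (π (y ^ n)) := by
      rw [map_mul, hψ _ hx _ hy]
    have h4 : ψ (π (y ^ n * x ^ n)) = ψ (π (x ^ n)) + ψ (π (y ^ n)) := by
      rw [map_mul, hψ _ hy _ hx]; ring
    have h5 : ψ (π ((x * y) ^ n)) = ψ (π (x ^ n)) + ψ (π (y ^ n)) := by linarith
    -- `y x` is conjugate to `x y`
    have h6 : π ((y * x) ^ n) = π ((x * y) ^ n) := by
      have e : (y * x) ^ n = x⁻¹ * (x * y) ^ n * x⁻¹⁻¹ := by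
        rw [← conj_pow]; congr 1; group
      rw [e, map_mul, map_mul, (Subgroup.mem_center_iff.1 hxy') (π x⁻¹), mul_assoc, ← map_mul,
        mul_inv_cancel, map_one, mul_one]
    have lx : lam hE.2 ψ (π x) = ψ (π (x ^ n)) / n := by
      rw [map_pow]; exact lam_eq hE.2 hψ hn1 (by rw [← map_pow]; exact hx)
    have ly : lam hE.2 ψ (π y) = ψ (π (y ^ n)) / n := by
      rw [map_pow]; exact lam_eq hE.2 hψ hn1 (by rw [← map_pow]; exact hy)
    have lxy : lam hE.2 ψ (π (x * y)) = ψ (π ((x * y) ^ n)) / n := by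
      rw [map_pow]; exact lam_eq hE.2 hψ hn1 (by rw [← map_pow]; exact hxy')
    have lyx : lam hE.2 ψ (π (y * x)) = ψ (π ((y * x) ^ n)) / n := by
      rw [map_pow]; exact lam_eq hE.2 hψ hn1 (by rw [← map_pow]; exact hyx')
    constructor
    · rw [lx, ly, lxy, h5]; ring
    · rw [lx, ly, lyx, h6, h5]; ring
  intro x y
  obtain ⟨x, rfl⟩ := hπ x
  obtain ⟨y, rfl⟩ := hπ y
  rcases leQ_total hQ (y * x) (x * y) with h | h
  · rw [← map_mul]; exact (key x y h).1
  · rw [← map_mul, (key y x h).2]; ring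

/-! ### Free presentations -/

/-- The Hopf type statement. -/
def FreeHopf : Prop :=
  ∀ (α : Type) (H : Subgroup (FreeGroup α)) [H.Normal],
    IsPeriodic (FreeGroup α ⧸ H) → IsEngel (FreeGroup α ⧸ H) →
    ∀ h ∈ H, h ∈ commutator (FreeGroup α) → ∃ n : ℕ, 1 ≤ n ∧ h ^ n ∈ ⁅H, (⊤ : Subgroup (FreeGroup α))⁆

theorem freeHopf_of (h3 : ∀ (E : Type) [Group E], EngelCentralByPeriodic E → PeriodicCommutator E) :
    FreeHopf := by
  intro α H hHn hper heng h hh hhc
  rw [isPeriodic_quotient] at hper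
  rw [isEngel_quotient] at heng
  set N : Subgroup (FreeGroup α) := ⁅H, (⊤ : Subgroup (FreeGroup α))⁆ with hN
  have hNn : N.Normal := by rw [hN]; infer_instance
  have hsurj : Function.Surjective (QuotientGroup.mk' N) := QuotientGroup.mk'_surjective N
  have hcen : ∀ h ∈ H, (QuotientGroup.mk' N) h ∈ Subgroup.center (FreeGroup α ⧸ N) := by
    intro h hh
    rw [Subgroup.mem_center_iff]
    intro g
    obtain ⟨g, rfl⟩ := hsurj g
    rw [← map_mul, ← map_mul]
    have h1 : h * g * h⁻¹ * g⁻¹ ∈ N := Subgroup.commutator_mem_commutator hh (Subgroup.mem_top g)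
    have h2 : h * g = (h * g * h⁻¹ * g⁻¹) * (g * h) := by group
    rw [h2, map_mul (QuotientGroup.mk' N) (h * g * h⁻¹ * g⁻¹)]
    have h3 : (QuotientGroup.mk' N) (h * g * h⁻¹ * g⁻¹) = 1 := by
      rw [← MonoidHom.mem_ker, QuotientGroup.ker_mk']; exact h1
    rw [h3, one_mul]
  have hE := h3 (FreeGroup α ⧸ N) ⟨by
      intro u v
      obtain ⟨u, rfl⟩ := hsurj u
      obtain ⟨v, rfl⟩ := hsurj v
      obtain ⟨n, hn⟩ := heng u v
      refine ⟨n + 1, by omega, ?_⟩
      rw [engelComm_succ, ← map_engelComm]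
      exact comm_eq_one_of_mem_center (hcen _ hn) _, by
      intro g
      obtain ⟨g, rfl⟩ := hsurj g
      obtain ⟨n, hn, hn'⟩ := hper g
      exact ⟨n, hn, by rw [← map_pow]; exact hcen _ hn'⟩⟩
  have h5 : (QuotientGroup.mk' N) h ∈ commutator (FreeGroup α ⧸ N) := by
    have h6 : (QuotientGroup.mk' N) h ∈ (commutator (FreeGroup α)).map (QuotientGroup.mk' N) :=
      Subgroup.mem_map_of_mem _ hhc
    have h8 : (commutator (FreeGroup α)).map (QuotientGroup.mk' N) ≤
        commutator (FreeGroup α ⧸ N) := by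
      rw [commutator_def, commutator_def, Subgroup.map_commutator]
      exact Subgroup.commutator_mono le_top le_top
    exact h8 h6
  obtain ⟨m, hm, hm'⟩ := hE _ h5
  refine ⟨m, hm, ?_⟩
  rw [← map_pow, ← MonoidHom.mem_ker, QuotientGroup.ker_mk'] at hm'
  exact hm'

theorem periodicCommutator_of_freeHopf (h5 : FreeHopf) (E : Type) [Group E]
    (hE : EngelCentralByPeriodic E) : PeriodicCommutator E := by
  intro c hc
  let π : FreeGroup E →* E := FreeGroup.lift id
  have hπ : Function.Surjective π := fun x => ⟨FreeGroup.of x, by simp [π]⟩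
  set H : Subgroup (FreeGroup E) := (Subgroup.center E).comap π with hH
  have hHn : H.Normal := by rw [hH]; infer_instance
  have hHper : IsPeriodic (FreeGroup E ⧸ H) := by
    rw [isPeriodic_quotient]
    intro g
    obtain ⟨n, hn, hn'⟩ := hE.2 (π g)
    exact ⟨n, hn, by rw [hH, Subgroup.mem_comap, map_pow]; exact hn'⟩
  have hHeng : IsEngel (FreeGroup E ⧸ H) := by
    rw [isEngel_quotient]
    intro x y
    obtain ⟨n, -, hn'⟩ := hE.1 (π x) (π y)
    refine ⟨n, ?_⟩
    rw [hH, Subgroup.mem_comap, map_engelComm, hn']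
    exact Subgroup.one_mem _
  have hmap : (commutator (FreeGroup E)).map π = commutator E := by
    rw [commutator_def, commutator_def, Subgroup.map_commutator,
      Subgroup.map_top_of_surjective π hπ]
  rw [← hmap] at hc
  obtain ⟨f, hf, rfl⟩ := hc
  obtain ⟨m, hm, hm'⟩ := hE.2 (π f)
  have hfm : f ^ m ∈ H := by rw [hH, Subgroup.mem_comap, map_pow]; exact hm'
  obtain ⟨k, hk, hk'⟩ := h5 E H hHper hHeng (f ^ m) hfm (Subgroup.pow_mem _ hf m)
  have hker : ⁅H, (⊤ : Subgroup (FreeGroup E))⁆ ≤ π.ker := by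
    rw [Subgroup.commutator_le]
    intro u hu v _
    rw [MonoidHom.mem_ker, commutatorElement_def, map_mul, map_mul, map_mul, map_inv, map_inv]
    have h1 := (Subgroup.mem_center_iff.1 (show π u ∈ Subgroup.center E from hu)) (π v)
    rw [← h1]
    group
  have h6 := hker hk'
  rw [MonoidHom.mem_ker, map_pow, map_pow, ← pow_mul] at h6
  exact ⟨m * k, Nat.mul_pos hm hk, h6⟩

lemma torsionFree_freeGroup (α : Type) : TorsionFree (FreeGroup α) := by
  intro g n hn h
  have h1 : n ≠ 0 := by omega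
  exact (pow_eq_one_iff_left h1).1 h

end Pool.Agent.H76.Ext
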