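import Pool.Agent.Lib.H76.Ext.Ext1
import Pool.Agent.Lib.H76.Ext.FreeOrder

/-!
# Equivalence of the extension problem with a problem about Engel groups
-/

set_option autoImplicit false

namespace Pool.Agent.H76.Ext

/-! ### A homomorphism to `ℚ` -/

lemma exists_hom_ne {Z : Type} [CommGroup Z] (z : Z) (hz : ∀ n : ℕ, 1 ≤ n → z ^ n ≠ 1) :
    ∃ ψ : Z → ℚ, (∀ x y, ψ (x * y) = ψ x + ψ y) ∧ ψ z ≠ 0 := by
  let f : ℤ →+ Additive Z := zmultiplesHom (Additive Z) (Additive.ofMul z)
  have hf : Function.Injective f := by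
    rw [injective_iff_map_eq_zero]
    intro n hn
    have h1 : n • Additive.ofMul z = 0 := by simpa [f] using hn
    have h2 : z ^ n = 1 := by
      rw [← ofMul_zpow] at h1
      exact Additive.ofMul.injective h1
    by_contra hne
    rcases Int.eq_nat_or_neg n with ⟨k, rfl | rfl⟩
    · rw [zpow_natCast] at h2
      exact hz k (by omega) h2
    · rw [zpow_neg, zpow_natCast, inv_eq_one] at h2
      exact hz k (by omega) h2
  obtain ⟨h, hh⟩ := (Module.Baer.of_divisible ℚ).extension_property_addMonoidHom f hf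
    (Int.castAddHom ℚ)
  refine ⟨fun x => h (Additive.ofMul x), fun x y => ?_, ?_⟩
  · show h (Additive.ofMul (x * y)) = h (Additive.ofMul x) + h (Additive.ofMul y)
    rw [ofMul_mul, map_add]
  · have h1 : h (f 1) = 1 := by
      have := congrArg (fun g : ℤ →+ ℚ => g 1) hh
      simpa using this
    have h2 : f 1 = Additive.ofMul z := by simp [f]
    rw [h2] at h1
    show h (Additive.ofMul z) ≠ 0
    rw [h1]
    exact one_ne_zero

/-! ### The function `lam` -/

section lam

variable {E : Type} [Group E] (hper : ∀ g : E, ∃ n : ℕ, 1 ≤ n ∧ g ^ n ∈ Subgroup.center E)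
  (ψ : E → ℚ)

/-- The rational number `ψ (g ^ n) / n`. -/
noncomputable def lam (g : E) : ℚ :=
  ψ (g ^ (Classical.choose (hper g))) / (Classical.choose (hper g) : ℕ)

variable {ψ}

lemma psi_one (hψ : ∀ x ∈ Subgroup.center E, ∀ y ∈ Subgroup.center E, ψ (x * y) = ψ x + ψ y) :
    ψ 1 = 0 := by
  have := hψ 1 (Subgroup.one_mem _) 1 (Subgroup.one_mem _)
  rw [mul_one] at this
  linarith

lemma psi_pow (hψ : ∀ x ∈ Subgroup.center E, ∀ y ∈ Subgroup.center E, ψ (x * y) = ψ x + ψ y)
    {z : E} (hz : z ∈ Subgroup.center E) (n : ℕ) : ψ (z ^ n) = n * ψ z := by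
  induction n with
  | zero => simp [psi_one hψ]
  | succ n ih =>
    rw [pow_succ, hψ _ (Subgroup.pow_mem _ hz n) _ hz, ih]
    push_cast
    ring

lemma lam_eq (hψ : ∀ x ∈ Subgroup.center E, ∀ y ∈ Subgroup.center E, ψ (x * y) = ψ x + ψ y)
    {g : E} {n : ℕ} (hn : 1 ≤ n) (hg : g ^ n ∈ Subgroup.center E) : lam hper ψ g = ψ (g ^ n) / n := by
  unfold lam
  obtain ⟨hm, hm'⟩ := Classical.choose_spec (hper g)
  set m := Classical.choose (hper g) with hmdef
  have h1 : ψ ((g ^ m) ^ n) = n * ψ (g ^ m) := psi_pow hψ hm' n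
  have h2 : ψ ((g ^ n) ^ m) = m * ψ (g ^ n) := psi_pow hψ hg m
  have h3 : (g ^ m) ^ n = (g ^ n) ^ m := by rw [← pow_mul, ← pow_mul, mul_comm]
  rw [h3, h2] at h1
  have hm0 : (m : ℚ) ≠ 0 := by
    have : m ≠ 0 := by omega
    exact_mod_cast this
  have hn0 : (n : ℚ) ≠ 0 := by
    have : n ≠ 0 := by omega
    exact_mod_cast this
  rw [div_eq_div_iff hm0 hn0]
  linarith

/-- If `lam` is additive then `ψ` kills the powers of elements of the commutator subgroup. -/
lemma psi_eq_zero_of_additive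
    (hψ : ∀ x ∈ Subgroup.center E, ∀ y ∈ Subgroup.center E, ψ (x * y) = ψ x + ψ y)
    (hadd : ∀ x y : E, lam hper ψ (x * y) = lam hper ψ x + lam hper ψ y)
    {c : E} (hc : c ∈ commutator E) {m : ℕ} (hm : 1 ≤ m) (hcm : c ^ m ∈ Subgroup.center E) :
    ψ (c ^ m) = 0 := by
  let L : E →* Multiplicative ℚ :=
    { toFun := fun g => Multiplicative.ofAdd (lam hper ψ g)
      map_one' := by
        have h1 := hadd 1 1
        rw [mul_one] at h1
        have h2 : lam hper ψ 1 = 0 := by linarith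
        rw [h2]; rfl
      map_mul' := by
        intro x y
        rw [hadd]; rfl }
  have h1 : commutator E ≤ L.ker := Abelianization.commutator_subset_ker L
  have h2 := h1 hc
  rw [MonoidHom.mem_ker] at h2
  have h3 : lam hper ψ c = 0 := h2
  rw [lam_eq hper hψ hm hcm] at h3
  have hm0 : (m : ℚ) ≠ 0 := by
    have : m ≠ 0 := by omega
    exact_mod_cast this
  rcases div_eq_zero_iff.1 h3 with h | h
  · exact h
  · exact absurd h hm0

end lam

/-! ### Consequences of an order -/

/-- The order relation attached to a cone. -/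
def leQ {G : Type} [Group G] (Q : Set G) (a b : G) : Prop := a = b ∨ a⁻¹ * b ∈ Q

section leQ

variable {G : Type} [Group G] {Q : Set G} (hQ : IsInvCone (⊤ : Subgroup G) Q)
include hQ

lemma leQ_trans {a b c : G} (h1 : leQ Q a b) (h2 : leQ Q b c) : leQ Q a c := by
  rcases h1 with rfl | h1
  · exact h2
  rcases h2 with rfl | h2
  · right; exact h1
  · right
    have := hQ.mul _ _ h1 h2
    have e : a⁻¹ * b * (b⁻¹ * c) = a⁻¹ * c := by group
    rwa [e] at this

omit hQ in
lemma leQ_mul_left {a b : G} (h : leQ Q a b) (c : G) : leQ Q (c * a) (c * b) := by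
  rcases h with rfl | h
  · left; rfl
  · right
    have e : (c * a)⁻¹ * (c * b) = a⁻¹ * b := by group
    rwa [e]

lemma leQ_mul_right {a b : G} (h : leQ Q a b) (c : G) : leQ Q (a * c) (b * c) := by
  rcases h with rfl | h
  · left; rfl
  · right
    have e : (a * c)⁻¹ * (b * c) = c⁻¹ * (a⁻¹ * b) * c⁻¹⁻¹ := by group
    rw [e]
    exact hQ.conj _ _ h

lemma leQ_total (a b : G) : leQ Q a b ∨ leQ Q b a := by
  by_cases h : a = b
  · left; left; exact h
  · have h1 : a⁻¹ * b ≠ 1 := by
      intro h2; exact h (inv_mul_eq_one.1 h2)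
    rcases hQ.tot _ trivial h1 with h2 | h2
    · left; right; exact h2
    · right; right
      have e : (a⁻¹ * b)⁻¹ = b⁻¹ * a := by group
      rwa [e] at h2

lemma leQ_comm_pow {x y : G} (h : leQ Q (y * x) (x * y)) (n : ℕ) :
    leQ Q (y * x ^ n) (x ^ n * y) ∧ leQ Q (y ^ n * x) (x * y ^ n) := by
  induction n with
  | zero => exact ⟨Or.inl (by simp), Or.inl (by simp)⟩
  | succ n ih =>
    constructor
    · have h1 := leQ_mul_right hQ ih.1 x
      have h2 := leQ_mul_left h (x ^ n)
      have e1 : y * x ^ n * x = y * x ^ (n + 1) := by rw [pow_succ]; group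
      have e2 : x ^ n * (y * x) = x ^ n * y * x := by group
      have e3 : x ^ n * (x * y) = x ^ (n + 1) * y := by rw [pow_succ]; group
      rw [e1] at h1
      rw [e2, e3] at h2
      exact leQ_trans hQ h1 h2
    · have h1 := leQ_mul_left ih.2 y
      have h2 := leQ_mul_right hQ h (y ^ n)
      have e1 : y * (y ^ n * x) = y ^ (n + 1) * x := by rw [pow_succ']; group
      have e2 : y * (x * y ^ n) = y * x * y ^ n := by group
      have e3 : x * y * y ^ n = x * y ^ (n + 1) := by rw [pow_succ']; group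
      rw [e1, e2] at h1
      rw [e3] at h2
      exact leQ_trans hQ h1 h2

lemma leQ_mul_pow {x y : G} (h : leQ Q (y * x) (x * y)) (n : ℕ) :
    leQ Q ((x * y) ^ n) (x ^ n * y ^ n) ∧ leQ Q (y ^ n * x ^ n) ((x * y) ^ n) := by
  induction n with
  | zero => exact ⟨Or.inl (by simp), Or.inl (by simp)⟩
  | succ n ih =>
    constructor
    · -- (xy)^n xy ≤ x^n y^n x y ≤ x^n x y^n y
      have h1 := leQ_mul_right hQ ih.1 (x * y)
      have h2 := leQ_mul_right hQ (leQ_mul_left (leQ_comm_pow hQ h n).2 (x ^ n)) y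
      have e1 : (x * y) ^ n * (x * y) = (x * y) ^ (n + 1) := by rw [pow_succ]
      have e2 : x ^ n * (y ^ n * x) * y = x ^ n * y ^ n * (x * y) := by group
      have e3 : x ^ n * (x * y ^ n) * y = x ^ (n + 1) * y ^ (n + 1) := by
        rw [pow_succ x, pow_succ y]; group
      rw [e1] at h1
      rw [e2, e3] at h2
      exact leQ_trans hQ h1 h2
    · -- y^(n+1) x^(n+1) = y^n... 
      have h1 := leQ_mul_left ih.2 (x * y)
      have h2 := leQ_mul_right hQ (leQ_comm_pow hQ h (n + 1)).2 (x ^ n)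
      have e1 : x * y * (y ^ n * x ^ n) = x * y ^ (n + 1) * x ^ n := by
        rw [pow_succ' y]; group
      have e2 : x * y * (x * y) ^ n = (x * y) ^ (n + 1) := by rw [pow_succ']
      have e3 : y ^ (n + 1) * x * x ^ n = y ^ (n + 1) * x ^ (n + 1) := by
        rw [pow_succ' x]; group
      rw [e1, e2] at h1
      rw [e3] at h2
      exact leQ_trans hQ h2 h1

end leQ

/-! ### Engel central-by-periodic groups: general facts -/

lemma comm_eq_one_of_mem_center {G : Type} [Group G] {z : G} (hz : z ∈ Subgroup.center G) (y : G) :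
    comm z y = 1 := by
  have h := (Subgroup.mem_center_iff.1 hz) y
  have e : comm z y = z⁻¹ * y⁻¹ * (z * y) := by rw [comm]; group
  rw [e, ← h]
  group

lemma IsEngel.of_surjective {G E : Type} [Group G] [Group E] (f : G →* E)
    (hf : Function.Surjective f) (h : IsEngel G) : IsEngel E := by
  intro u v
  obtain ⟨u, rfl⟩ := hf u
  obtain ⟨v, rfl⟩ := hf v
  obtain ⟨n, hn, hn'⟩ := h u v
  exact ⟨n, hn, by rw [← map_engelComm, hn', map_one]⟩

lemma IsEngel.of_injective {G E : Type} [Group G] [Group E] (f : G →* E)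
    (hf : Function.Injective f) (h : IsEngel E) : IsEngel G := by
  intro u v
  obtain ⟨n, hn, hn'⟩ := h (f u) (f v)
  refine ⟨n, hn, hf ?_⟩
  rw [map_engelComm, hn', map_one]

lemma EngelCentralByPeriodic.subgroup {E : Type} [Group E] (hE : EngelCentralByPeriodic E)
    (K : Subgroup E) : EngelCentralByPeriodic K := by
  refine ⟨hE.1.of_injective K.subtype K.subtype_injective, ?_⟩
  intro g
  obtain ⟨n, hn, hn'⟩ := hE.2 (g : E)
  refine ⟨n, hn, ?_⟩
  rw [Subgroup.mem_center_iff] at hn' ⊢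
  intro k
  apply Subtype.ext
  push_cast
  exact hn' (k : E)

lemma EngelCentralByPeriodic.of_surjective {G E : Type} [Group G] [Group E] (f : G →* E)
    (hf : Function.Surjective f) (h : EngelCentralByPeriodic G) : EngelCentralByPeriodic E := by
  refine ⟨h.1.of_surjective f hf, ?_⟩
  intro g
  obtain ⟨g, rfl⟩ := hf g
  obtain ⟨n, hn, hn'⟩ := h.2 g
  refine ⟨n, hn, ?_⟩
  rw [Subgroup.mem_center_iff] at hn' ⊢
  intro k
  obtain ⟨k, rfl⟩ := hf k
  rw [← map_pow, ← map_mul, ← map_mul, hn' k]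

/-- The statement for products of elements of finite order. -/
def ProdFiniteOrder (E : Type) [Group E] : Prop :=
  ∀ x y : E, (∃ n : ℕ, 1 ≤ n ∧ x ^ n = 1) → (∃ n : ℕ, 1 ≤ n ∧ y ^ n = 1) →
    ∃ n : ℕ, 1 ≤ n ∧ (x * y) ^ n = 1

lemma prod_of_periodicCommutator {E : Type} [Group E] (h : PeriodicCommutator E) :
    ProdFiniteOrder E := by
  rintro x y ⟨m, hm, hxm⟩ ⟨k, hk, hyk⟩
  have h1 := mul_pow_commutator x y (m * k)
  have h2 : x ^ (m * k) = 1 := by rw [pow_mul, hxm, one_pow]
  have h3 : y ^ (m * k) = 1 := by rw [mul_comm, pow_mul, hyk, one_pow]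
  rw [h2, h3, mul_one, inv_one, mul_one] at h1
  obtain ⟨n, hn, hn'⟩ := h _ h1
  exact ⟨m * k * n, Nat.mul_pos (Nat.mul_pos hm hk) hn, by rw [pow_mul]; exact hn'⟩

/-- From `2`-generated groups to products of two elements of finite order. -/
theorem prod_of_two (h4 : ∀ (E : Type) [Group E], (∃ a b : E, Subgroup.closure {a, b} = ⊤) →
      EngelCentralByPeriodic E → PeriodicCommutator E)
    (E : Type) [Group E] (hE : EngelCentralByPeriodic E) : ProdFiniteOrder E := by
  rintro x y hx hy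
  set K : Subgroup E := Subgroup.closure {x, y} with hK
  have hxK : x ∈ K := Subgroup.subset_closure (by simp)
  have hyK : y ∈ K := Subgroup.subset_closure (by simp)
  let x' : K := ⟨x, hxK⟩
  let y' : K := ⟨y, hyK⟩
  have hgen : Subgroup.closure {x', y'} = (⊤ : Subgroup K) := by
    apply Subgroup.map_injective K.subtype_injective
    rw [MonoidHom.map_closure, Set.image_pair, ← MonoidHom.range_eq_map, Subgroup.range_subtype]
    rfl
  have h1 := prod_of_periodicCommutator (h4 K ⟨x', y', hgen⟩ (hE.subgroup K))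
  obtain ⟨m, hm, hm'⟩ := hx
  obtain ⟨k, hk, hk'⟩ := hy
  obtain ⟨n, hn, hn'⟩ := h1 x' y' ⟨m, hm, Subtype.ext (by push_cast; exact hm')⟩
    ⟨k, hk, Subtype.ext (by push_cast; exact hk')⟩
  refine ⟨n, hn, ?_⟩
  have := congrArg (fun z : K => (z : E)) hn'
  simpa using this

/-- Products of elements of finite order suffice. -/
theorem periodicCommutator_of_prod
    (h6 : ∀ (E : Type) [Group E], EngelCentralByPeriodic E → ProdFiniteOrder E)
    (E : Type) [Group E] (hE : EngelCentralByPeriodic E) : PeriodicCommutator E := by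
  intro c hc
  by_contra hcon
  push Not at hcon
  obtain ⟨m, hm, hcm⟩ := hE.2 c
  let _ : CommGroup (Subgroup.center E) :=
    { (inferInstance : Group (Subgroup.center E)) with
      mul_comm := fun a b => Subtype.ext ((Subgroup.mem_center_iff.1 b.2) a) }
  obtain ⟨ψ₀, hψ₀, hne⟩ := exists_hom_ne (⟨c ^ m, hcm⟩ : Subgroup.center E) (by
    intro n hn h
    have h1 := congrArg (fun z : Subgroup.center E => (z : E)) h
    simp only [SubmonoidClass.mk_pow, OneMemClass.coe_one] at h1
    rw [← pow_mul] at h1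
    exact hcon (m * n) (Nat.mul_pos hm hn) h1)
  classical
  set ψ : E → ℚ := fun g => if hg : g ∈ Subgroup.center E then ψ₀ ⟨g, hg⟩ else 0 with hψdef
  have hψ' : ∀ g (hg : g ∈ Subgroup.center E), ψ g = ψ₀ ⟨g, hg⟩ := by
    intro g hg
    rw [hψdef]
    simp only [dif_pos hg]
  have hψ : ∀ x ∈ Subgroup.center E, ∀ y ∈ Subgroup.center E, ψ (x * y) = ψ x + ψ y := by
    intro x hx y hy
    rw [hψ' x hx, hψ' y hy, hψ' _ (Subgroup.mul_mem _ hx hy), ← hψ₀]
    rfl
  apply hne
  rw [← hψ' (c ^ m) hcm]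
  refine psi_eq_zero_of_additive hE.2 hψ ?_ hc hm hcm
  -- the group `(E × ℚ) / {(z, -ψ z)}`
  intro x y
  let K : Subgroup (E × Multiplicative ℚ) :=
    { carrier := {p | p.1 ∈ Subgroup.center E ∧ Multiplicative.toAdd p.2 = - ψ p.1}
      one_mem' := ⟨Subgroup.one_mem _, by
        show (0 : ℚ) = - ψ 1
        rw [psi_one hψ, neg_zero]⟩
      mul_mem' := by
        rintro ⟨a, b⟩ ⟨a', b'⟩ ⟨h1, h2⟩ ⟨h3, h4⟩
        refine ⟨Subgroup.mul_mem _ h1 h3, ?_⟩
        show Multiplicative.toAdd b + Multiplicative.toAdd b' = - ψ (a * a')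
        rw [hψ a h1 a' h3]
        simp only at h2 h4
        rw [h2, h4]; ring
      inv_mem' := by
        rintro ⟨a, b⟩ ⟨h1, h2⟩
        refine ⟨Subgroup.inv_mem _ h1, ?_⟩
        show - Multiplicative.toAdd b = - ψ (a⁻¹)
        have h3 := hψ a h1 a⁻¹ (Subgroup.inv_mem _ h1)
        rw [mul_inv_cancel, psi_one hψ] at h3
        simp only at h2
        rw [h2]; linarith }
  have hKmem : ∀ p : E × Multiplicative ℚ,
      p ∈ K ↔ (p.1 ∈ Subgroup.center E ∧ Multiplicative.toAdd p.2 = - ψ p.1) := fun _ => Iff.rfl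
  have hKn : K.Normal := by
    refine ⟨?_⟩
    rintro ⟨a, b⟩ ⟨h1, h2⟩ ⟨g, s⟩
    have e : ((g, s) : E × Multiplicative ℚ) * (a, b) * (g, s)⁻¹ = (a, b) := by
      apply Prod.ext
      · show g * a * g⁻¹ = a
        rw [(Subgroup.mem_center_iff.1 h1) g]; group
      · show s * b * s⁻¹ = b
        rw [mul_comm s b]; group
    rw [e]
    exact ⟨h1, h2⟩
  have hE1 : EngelCentralByPeriodic (E × Multiplicative ℚ) := by
    constructor
    · intro u v
      obtain ⟨n, hn, hn'⟩ := hE.1 u.1 v.1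
      refine ⟨n, hn, ?_⟩
      apply Prod.ext
      · have := map_engelComm (MonoidHom.fst E (Multiplicative ℚ)) u v n
        simp only [MonoidHom.coe_fst] at this
        rw [this, hn']; rfl
      · have := map_engelComm (MonoidHom.snd E (Multiplicative ℚ)) u v n
        simp only [MonoidHom.coe_snd] at this
        rw [this]
        obtain ⟨k, rfl⟩ : ∃ k, n = k + 1 := ⟨n - 1, by omega⟩
        rw [engelComm_succ]
        refine comm_eq_one_of_mem_center ?_ _
        rw [Subgroup.mem_center_iff]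
        intro g
        exact mul_comm _ _
    · intro g
      obtain ⟨n, hn, hn'⟩ := hE.2 g.1
      refine ⟨n, hn, ?_⟩
      rw [Subgroup.mem_center_iff] at hn' ⊢
      intro k
      apply Prod.ext
      · exact hn' k.1
      · exact mul_comm _ _
  have hE2 : EngelCentralByPeriodic ((E × Multiplicative ℚ) ⧸ K) :=
    hE1.of_surjective (QuotientGroup.mk' K) (QuotientGroup.mk'_surjective K)
  have htor : ∀ x : E, ∃ n : ℕ, 1 ≤ n ∧
      (QuotientGroup.mk' K (x, Multiplicative.ofAdd (- lam hE.2 ψ x))) ^ n = 1 := by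
    intro x
    obtain ⟨n, hn, hn'⟩ := hE.2 x
    refine ⟨n, hn, ?_⟩
    rw [← map_pow, ← MonoidHom.mem_ker, QuotientGroup.ker_mk', hKmem]
    refine ⟨hn', ?_⟩
    show n • (- lam hE.2 ψ x) = - ψ (x ^ n)
    rw [lam_eq hE.2 hψ hn hn']
    have hn0 : (n : ℚ) ≠ 0 := by
      have : n ≠ 0 := by omega
      exact_mod_cast this
    rw [nsmul_eq_mul]
    field_simp
  obtain ⟨k, hk, hk'⟩ := h6 _ hE2 _ _ (htor x) (htor y)
  rw [← map_mul, ← map_pow, ← MonoidHom.mem_ker, QuotientGroup.ker_mk', hKmem] at hk'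
  obtain ⟨h1, h2⟩ := hk'
  have h1' : (x * y) ^ k ∈ Subgroup.center E := h1
  have h2' : k • (- lam hE.2 ψ x + - lam hE.2 ψ y) = - ψ ((x * y) ^ k) := h2
  rw [lam_eq hE.2 hψ hk h1']
  have hk0 : (k : ℚ) ≠ 0 := by
    have : k ≠ 0 := by omega
    exact_mod_cast this
  rw [nsmul_eq_mul] at h2'
  rw [div_eq_iff hk0]
  linarith

end Pool.Agent.H76.Ext
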