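import Pool.Agent.Lib.H76.Ext.Main
import Pool.Agent.Lib.H76.Ext.Defs

/-!
# From Engel central-by-periodic groups to extension of orders
-/

set_option autoImplicit false

namespace Pool.Agent.H76.Ext

lemma engelComm_succ {G : Type} [Group G] (x y : G) (n : ℕ) :
    engelComm x y (n + 1) = comm (engelComm x y n) y := by
  simp only [engelComm]
  rw [Function.iterate_succ_apply']

lemma map_engelComm {G E : Type} [Group G] [Group E] (f : G →* E) (x y : G) (n : ℕ) :
    f (engelComm x y n) = engelComm (f x) (f y) n := by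
  induction n with
  | zero => simp [engelComm]
  | succ n ih =>
    rw [engelComm_succ, engelComm_succ, comm, comm, map_mul, map_mul, map_mul, map_inv, map_inv, ih]

/-- The order on `H` attached to a cone. -/
@[instance_reducible] noncomputable def IsInvCone.order {G : Type} [Group G] {H : Subgroup G} {P : Set G} (hP : IsInvCone H P) :
    LinearOrder H where
  le a b := a = b ∨ ((a⁻¹ * b : H) : G) ∈ P
  le_refl a := Or.inl rfl
  le_trans a b c := by
    rintro (rfl | h1) (rfl | h2)
    · left; rfl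
    · right; exact h2
    · right; exact h1
    · right
      have := hP.mul _ _ h1 h2
      have e : ((a⁻¹ * b : H) : G) * ((b⁻¹ * c : H) : G) = ((a⁻¹ * c : H) : G) := by
        push_cast; group
      rwa [e] at this
  le_antisymm a b := by
    rintro (rfl | h1) h2
    · rfl
    · rcases h2 with h2 | h2
      · exact h2.symm
      · exfalso
        have := hP.mul _ _ h1 h2
        have e : ((a⁻¹ * b : H) : G) * ((b⁻¹ * a : H) : G) = 1 := by push_cast; group
        rw [e] at this
        exact hP.one this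
  le_total a b := by
    by_cases h : a = b
    · left; left; exact h
    · have h1 : ((a⁻¹ * b : H) : G) ≠ 1 := by
        intro h2
        apply h
        have h3 : (a⁻¹ * b : H) = 1 := Subtype.ext h2
        exact inv_mul_eq_one.1 h3
      rcases hP.tot _ (a⁻¹ * b : H).2 h1 with h2 | h2
      · left; right; exact h2
      · right; right
        have e : (((a⁻¹ * b : H)) : G)⁻¹ = ((b⁻¹ * a : H) : G) := by push_cast; group
        rwa [e] at h2
  toDecidableLE := Classical.decRel _

lemma IsInvCone.order_lt {G : Type} [Group G] {H : Subgroup G} {P : Set G} (hP : IsInvCone H P)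
    (a b : H) : hP.order.lt a b ↔ ((a⁻¹ * b : H) : G) ∈ P := by
  let _ := hP.order
  have h0 : ∀ a b : H, a ≤ b ↔ (a = b ∨ ((a⁻¹ * b : H) : G) ∈ P) := fun _ _ => Iff.rfl
  show a < b ↔ _
  rw [lt_iff_le_and_ne, h0]
  constructor
  · rintro ⟨h1 | h1, h2⟩
    · exact absurd h1 h2
    · exact h1
  · intro h
    refine ⟨Or.inr h, ?_⟩
    rintro rfl
    apply hP.one
    simpa using h

/-- Concrete form of the main step. -/
theorem main_cone {G : Type} [Group G] {H : Subgroup G} [H.Normal] {P : Set G}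
    (hP : IsInvCone H P) (x y : G) (hgen : Subgroup.closure {x, y} = ⊤)
    (hZ : ∀ N : Subgroup G, N.Normal → N ≤ H → (∀ h ∈ H, ∀ g : G, g * h * g⁻¹ * h⁻¹ ∈ N) →
      ∀ h ∈ H, h ∈ commutator G ⊔ N → ∃ m : ℕ, 1 ≤ m ∧ h ^ m ∈ N)
    {n : ℕ} (hn : 1 ≤ n) (ha : x ^ n ∈ P) (hb : y ^ n ∈ P) (hc : (x * y) ^ n ∈ H) :
    (x * y) ^ n ∈ P := by
  let _ := hP.order
  have hlt : ∀ a b : H, a < b ↔ ((a⁻¹ * b : H) : G) ∈ P := fun a b => hP.order_lt a b
  have hle : ∀ a b : H, a ≤ b ↔ (a = b ∨ ((a⁻¹ * b : H) : G) ∈ P) := fun _ _ => Iff.rfl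
  have hone : ∀ a : H, 1 < a ↔ (a : G) ∈ P := by
    intro a
    rw [hlt]
    simp
  have _ : MulLeftMono H := ⟨by
    intro c a b hab
    rcases (hle a b).1 hab with h | h
    · rw [h]
    · refine (hle _ _).2 (Or.inr ?_)
      have e : (((c * a)⁻¹ * (c * b) : H) : G) = ((a⁻¹ * b : H) : G) := by push_cast; group
      show (((c * a)⁻¹ * (c * b) : H) : G) ∈ P
      rw [e]; exact h⟩
  have _ : MulRightMono H := ⟨by
    intro c a b hab
    rcases (hle a b).1 hab with h | h
    · rw [h]
    · refine (hle _ _).2 (Or.inr ?_)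
      have e : (((a * c)⁻¹ * (b * c) : H) : G) = (c : G)⁻¹ * ((a⁻¹ * b : H) : G) * ((c : G)⁻¹)⁻¹ := by
        push_cast; group
      show (((a * c)⁻¹ * (b * c) : H) : G) ∈ P
      rw [e]; exact hP.conj _ _ h⟩
  have hconj : ∀ g : G, StrictMono ((MulAut.conjNormal g : MulAut H) : H ≃* H) := by
    intro g a b hab
    rw [hlt] at hab ⊢
    have e : ((((MulAut.conjNormal g : MulAut H) a)⁻¹ * (MulAut.conjNormal g : MulAut H) b : H) : G)
        = g * ((a⁻¹ * b : H) : G) * g⁻¹ := by
      push_cast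
      simp only [MulAut.conjNormal_apply]
      group
    rw [e]
    exact hP.conj _ _ hab
  have := main_abs H hconj x y hgen hZ hn ⟨x ^ n, hP.sub _ ha⟩ ⟨y ^ n, hP.sub _ hb⟩
    ⟨(x * y) ^ n, hc⟩ rfl rfl rfl ((hone _).2 ha) ((hone _).2 hb)
  exact (hone _).1 this

lemma InvCone_pow {G : Type} [Group G] {H : Subgroup G} {P : Set G} (hP : IsInvCone H P)
    {x : G} (hx : x ∈ P) {n : ℕ} (hn : 1 ≤ n) : x ^ n ∈ P := by
  induction n with
  | zero => omega
  | succ n ih =>
    rcases Nat.eq_zero_or_pos n with h | h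
    · subst h; simpa using hx
    · rw [pow_succ]; exact hP.mul _ _ (ih h) hx

/-- The condition on `2`-generated groups gives the hypothesis `hZ` for every `2`-generated group
which is periodic Engel modulo `H`. -/
lemma hZ_of (h4 : ∀ (E : Type) [Group E], (∃ a b : E, Subgroup.closure {a, b} = ⊤) →
      EngelCentralByPeriodic E → PeriodicCommutator E)
    {K : Type} [Group K] (H : Subgroup K) (x y : K) (hgen : Subgroup.closure {x, y} = ⊤)
    (hper : ∀ g : K, ∃ n : ℕ, 1 ≤ n ∧ g ^ n ∈ H)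
    (heng : ∀ u v : K, ∃ n : ℕ, engelComm u v n ∈ H) :
    ∀ N : Subgroup K, N.Normal → N ≤ H → (∀ h ∈ H, ∀ g : K, g * h * g⁻¹ * h⁻¹ ∈ N) →
      ∀ h ∈ H, h ∈ commutator K ⊔ N → ∃ m : ℕ, 1 ≤ m ∧ h ^ m ∈ N := by
  intro N hN hNH hcent h hh hhc
  have hsurj : Function.Surjective (QuotientGroup.mk' N) := QuotientGroup.mk'_surjective N
  have hcen : ∀ h ∈ H, (QuotientGroup.mk' N) h ∈ Subgroup.center (K ⧸ N) := by
    intro h hh
    rw [Subgroup.mem_center_iff]
    intro g
    obtain ⟨g, rfl⟩ := hsurj g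
    rw [← map_mul, ← map_mul]
    have h1 := hcent h hh g
    have h2 : g * h = (g * h * g⁻¹ * h⁻¹) * (h * g) := by group
    rw [h2, map_mul]
    have h3 : (QuotientGroup.mk' N) (g * h * g⁻¹ * h⁻¹) = 1 := by
      rw [← MonoidHom.mem_ker, QuotientGroup.ker_mk']; exact h1
    rw [h3, one_mul]
  have hE := h4 (K ⧸ N) ⟨(QuotientGroup.mk' N) x, (QuotientGroup.mk' N) y, by
      rw [← Set.image_pair, ← MonoidHom.map_closure, hgen, ← MonoidHom.range_eq_map]
      exact MonoidHom.range_eq_top.2 hsurj⟩ ⟨by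
      intro u v
      obtain ⟨u, rfl⟩ := hsurj u
      obtain ⟨v, rfl⟩ := hsurj v
      obtain ⟨n, hn⟩ := heng u v
      refine ⟨n + 1, by omega, ?_⟩
      rw [engelComm_succ, ← map_engelComm]
      have h1 := (Subgroup.mem_center_iff.1 (hcen _ hn)) ((QuotientGroup.mk' N) v)
      rw [comm]
      have h2 : ((QuotientGroup.mk' N) (engelComm u v n))⁻¹ * ((QuotientGroup.mk' N) v)⁻¹ *
          (QuotientGroup.mk' N) (engelComm u v n) * (QuotientGroup.mk' N) v =
          ((QuotientGroup.mk' N) (engelComm u v n))⁻¹ * ((QuotientGroup.mk' N) v)⁻¹ *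
          ((QuotientGroup.mk' N) (engelComm u v n) * (QuotientGroup.mk' N) v) := by group
      rw [h2, ← h1]
      group, by
      intro g
      obtain ⟨g, rfl⟩ := hsurj g
      obtain ⟨n, hn, hn'⟩ := hper g
      exact ⟨n, hn, by rw [← map_pow]; exact hcen _ hn'⟩⟩
  have h5 : (QuotientGroup.mk' N) h ∈ commutator (K ⧸ N) := by
    have h6 : (QuotientGroup.mk' N) h ∈ (commutator K ⊔ N).map (QuotientGroup.mk' N) :=
      Subgroup.mem_map_of_mem _ hhc
    rw [Subgroup.map_sup] at h6
    have h7 : N.map (QuotientGroup.mk' N) = ⊥ := by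
      rw [Subgroup.map_eq_bot_iff, QuotientGroup.ker_mk']
    rw [h7, sup_bot_eq] at h6
    have h8 : (commutator K).map (QuotientGroup.mk' N) ≤ commutator (K ⧸ N) := by
      rw [commutator_def, commutator_def, Subgroup.map_commutator]
      exact Subgroup.commutator_mono le_top le_top
    exact h8 h6
  obtain ⟨m, hm, hm'⟩ := hE _ h5
  refine ⟨m, hm, ?_⟩
  rw [← map_pow, ← MonoidHom.mem_ker, QuotientGroup.ker_mk'] at hm'
  exact hm'

theorem extProp_of (h4 : ∀ (E : Type) [Group E], (∃ a b : E, Subgroup.closure {a, b} = ⊤) →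
      EngelCentralByPeriodic E → PeriodicCommutator E)
    (G : Type) [Group G] (hG : TorsionFree G) : ExtProp G := by
  intro H hHn hper heng P hP
  have hper' : ∀ g : G, ∃ n : ℕ, 1 ≤ n ∧ g ^ n ∈ H := by
    intro g
    obtain ⟨n, hn, hn'⟩ := hper (QuotientGroup.mk' H g)
    refine ⟨n, hn, ?_⟩
    rw [← map_pow, ← MonoidHom.mem_ker, QuotientGroup.ker_mk'] at hn'
    exact hn'
  have heng' : ∀ u v : G, ∃ n : ℕ, engelComm u v n ∈ H := by
    intro u v
    obtain ⟨n, -, hn'⟩ := heng (QuotientGroup.mk' H u) (QuotientGroup.mk' H v)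
    refine ⟨n, ?_⟩
    rw [← map_engelComm, ← MonoidHom.mem_ker, QuotientGroup.ker_mk'] at hn'
    exact hn'
  refine ⟨{g | ∃ n : ℕ, 1 ≤ n ∧ g ^ n ∈ P}, ⟨?_, ?_, ?_, ?_, ?_⟩, ?_⟩
  · intro x _; trivial
  · rintro x y ⟨m, hm, hxm⟩ ⟨k, hk, hyk⟩
    obtain ⟨l, hl, hxyl⟩ := hper' (x * y)
    have hn : 1 ≤ m * k * l := Nat.mul_pos (Nat.mul_pos hm hk) hl
    have hxn : x ^ (m * k * l) ∈ P := by
      rw [mul_assoc, pow_mul]; exact InvCone_pow hP hxm (Nat.mul_pos hk hl)
    have hyn : y ^ (m * k * l) ∈ P := by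
      rw [mul_comm m k, mul_assoc, pow_mul]; exact InvCone_pow hP hyk (Nat.mul_pos hm hl)
    have hxyn : (x * y) ^ (m * k * l) ∈ H := by
      rw [mul_comm (m * k) l, pow_mul]; exact H.pow_mem hxyl _
    refine ⟨m * k * l, hn, ?_⟩
    -- pass to the subgroup generated by `x` and `y`
    set K : Subgroup G := Subgroup.closure {x, y} with hK
    have hxK : x ∈ K := Subgroup.subset_closure (by simp)
    have hyK : y ∈ K := Subgroup.subset_closure (by simp)
    let x' : K := ⟨x, hxK⟩
    let y' : K := ⟨y, hyK⟩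
    have hgen : Subgroup.closure {x', y'} = (⊤ : Subgroup K) := by
      apply Subgroup.map_injective K.subtype_injective
      rw [MonoidHom.map_closure, Set.image_pair, ← MonoidHom.range_eq_map, Subgroup.range_subtype]
      rfl
    have hP' : IsInvCone (H.subgroupOf K) {g : K | (g : G) ∈ P} := by
      refine ⟨?_, ?_, ?_, ?_, ?_⟩
      · intro g hg
        exact Subgroup.mem_subgroupOf.2 (hP.sub _ hg)
      · intro g h hg hh
        exact hP.mul _ _ hg hh
      · exact hP.one
      · intro g hg hg1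
        exact hP.tot (g : G) (Subgroup.mem_subgroupOf.1 hg) (fun h => hg1 (Subtype.ext h))
      · intro g h hh
        exact hP.conj _ _ hh
    have hper'' : ∀ g : K, ∃ n : ℕ, 1 ≤ n ∧ g ^ n ∈ H.subgroupOf K := by
      intro g
      obtain ⟨n, hn, hn'⟩ := hper' (g : G)
      exact ⟨n, hn, Subgroup.mem_subgroupOf.2 (by push_cast; exact hn')⟩
    have heng'' : ∀ u v : K, ∃ n : ℕ, engelComm u v n ∈ H.subgroupOf K := by
      intro u v
      obtain ⟨n, hn'⟩ := heng' (u : G) (v : G)
      refine ⟨n, Subgroup.mem_subgroupOf.2 ?_⟩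
      have := map_engelComm K.subtype u v n
      simp only [Subgroup.subtype_apply] at this
      rw [this]
      exact hn'
    have := main_cone hP' x' y' hgen
      (hZ_of h4 (H.subgroupOf K) x' y' hgen hper'' heng'') hn hxn hyn
      (Subgroup.mem_subgroupOf.2 (by push_cast; exact hxyn))
    exact this
  · rintro ⟨n, -, hn⟩
    rw [one_pow] at hn
    exact hP.one hn
  · intro x _ hx
    obtain ⟨n, hn, hn'⟩ := hper' x
    have h1 : x ^ n ≠ 1 := fun h => hx (hG x n hn h)
    rcases hP.tot _ hn' h1 with h2 | h2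
    · left; exact ⟨n, hn, h2⟩
    · right; exact ⟨n, hn, by rw [inv_pow]; exact h2⟩
  · rintro g x ⟨n, hn, hn'⟩
    exact ⟨n, hn, by rw [conj_pow]; exact hP.conj _ _ hn'⟩
  · ext x
    constructor
    · intro hx
      exact ⟨⟨1, le_refl _, by simpa using hx⟩, hP.sub _ hx⟩
    · rintro ⟨⟨n, hn, hn'⟩, hx⟩
      have hx1 : x ≠ 1 := by
        rintro rfl
        rw [one_pow] at hn'
        exact hP.one hn'
      rcases hP.tot x hx hx1 with h | h
      · exact h
      · exfalso
        have h1 := InvCone_pow hP h hn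
        have h2 := hP.mul _ _ h1 hn'
        rw [inv_pow, inv_mul_cancel] at h2
        exact hP.one h2

end Pool.Agent.H76.Ext
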