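import Pool.Agent.Lib.H76.Ext.Ord

/-!
# The main step: products of positive elements
-/

set_option autoImplicit false

namespace Pool.Agent.H76.Ext

section abs

variable {G : Type*} [Group G]

lemma conjNormal_iter (H : Subgroup G) [H.Normal] (g : G) (n : ℕ) (h : H) :
    ((((MulAut.conjNormal g : MulAut H) : H ≃* H)^[n]) h : G) = g ^ n * h * (g ^ n)⁻¹ := by
  induction n generalizing h with
  | zero => simp
  | succ n ih =>
    rw [Function.iterate_succ_apply, ih, MulAut.conjNormal_apply, pow_succ]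
    group

lemma closed_of_gen (H : Subgroup G) [H.Normal] {x y : G} (hgen : Subgroup.closure {x, y} = ⊤)
    (V : Subgroup H)
    (hx : ∀ h ∈ V, (MulAut.conjNormal x : MulAut H) h ∈ V)
    (hx' : ∀ h ∈ V, (MulAut.conjNormal x⁻¹ : MulAut H) h ∈ V)
    (hy : ∀ h ∈ V, (MulAut.conjNormal y : MulAut H) h ∈ V)
    (hy' : ∀ h ∈ V, (MulAut.conjNormal y⁻¹ : MulAut H) h ∈ V) :
    ∀ g : G, ∀ h ∈ V, (MulAut.conjNormal g : MulAut H) h ∈ V := by
  have key : ∀ g : G, g ∈ Subgroup.closure {x, y} →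
      (∀ h ∈ V, (MulAut.conjNormal g : MulAut H) h ∈ V) ∧
      (∀ h ∈ V, (MulAut.conjNormal g⁻¹ : MulAut H) h ∈ V) := by
    intro g hg
    induction hg using Subgroup.closure_induction with
    | mem z hz =>
      rcases hz with rfl | hz
      · exact ⟨hx, hx'⟩
      · rw [Set.mem_singleton_iff] at hz
        subst hz
        exact ⟨hy, hy'⟩
    | one => simp
    | mul g1 g2 _ _ h1 h2 =>
      refine ⟨fun h hh => ?_, fun h hh => ?_⟩
      · rw [map_mul, MulAut.mul_apply]
        exact h1.1 _ (h2.1 _ hh)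
      · rw [mul_inv_rev, map_mul, MulAut.mul_apply]
        exact h2.2 _ (h1.2 _ hh)
    | inv g _ h1 => exact ⟨h1.2, by rw [inv_inv]; exact h1.1⟩
  intro g
  exact (key g (by rw [hgen]; trivial)).1

lemma central_of_gen (H : Subgroup G) [H.Normal] {x y : G} (hgen : Subgroup.closure {x, y} = ⊤)
    (V : Subgroup H)
    (hx : ∀ h : H, (MulAut.conjNormal x : MulAut H) h * h⁻¹ ∈ V)
    (hy : ∀ h : H, (MulAut.conjNormal y : MulAut H) h * h⁻¹ ∈ V) :
    ∀ g : G, ∀ h : H, (MulAut.conjNormal g : MulAut H) h * h⁻¹ ∈ V := by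
  have key : ∀ g : G, g ∈ Subgroup.closure {x, y} →
      (∀ h : H, (MulAut.conjNormal g : MulAut H) h * h⁻¹ ∈ V) := by
    intro g hg
    induction hg using Subgroup.closure_induction with
    | mem z hz =>
      rcases hz with rfl | hz
      · exact hx
      · rw [Set.mem_singleton_iff] at hz
        subst hz
        exact hy
    | one => intro h; simp
    | mul g1 g2 _ _ h1 h2 =>
      intro h
      rw [map_mul, MulAut.mul_apply]
      have := V.mul_mem (h1 ((MulAut.conjNormal g2 : MulAut H) h)) (h2 h)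
      simpa [mul_assoc] using this
    | inv g _ h1 =>
      intro h
      have h2 := h1 ((MulAut.conjNormal g⁻¹ : MulAut H) h)
      have h3 : (MulAut.conjNormal g : MulAut H) ((MulAut.conjNormal g⁻¹ : MulAut H) h) = h := by
        rw [← MulAut.mul_apply, ← map_mul]; simp
      rw [h3] at h2
      have := V.inv_mem h2
      simpa using this
  intro g
  exact key g (by rw [hgen]; trivial)

lemma pow_mem_commutator_sup {x y : G} (hgen : Subgroup.closure {x, y} = ⊤)
    (N : Subgroup G) {n : ℕ} (hx : x ^ n ∈ N) (hy : y ^ n ∈ N) (g : G) :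
    g ^ n ∈ commutator G ⊔ N := by
  have key : Subgroup.closure {x, y} ≤
      ((N.map (Abelianization.of : G →* Abelianization G)).comap (powMonoidHom n)).comap
        (Abelianization.of : G →* Abelianization G) := by
    rw [Subgroup.closure_le]
    intro z hz
    simp only [Subgroup.coe_comap, Set.mem_preimage, powMonoidHom_apply, SetLike.mem_coe,
      ← map_pow]
    rcases hz with rfl | hz
    · exact Subgroup.mem_map_of_mem _ hx
    · rw [Set.mem_singleton_iff] at hz
      subst hz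
      exact Subgroup.mem_map_of_mem _ hy
  have h1 : g ∈ Subgroup.closure {x, y} := by rw [hgen]; trivial
  have h2 := key h1
  simp only [Subgroup.mem_comap, powMonoidHom_apply, ← map_pow] at h2
  obtain ⟨k, hk, hk'⟩ := h2
  have h3 : g ^ n * k⁻¹ ∈ commutator G := by
    rw [← Abelianization.ker_of, MonoidHom.mem_ker, map_mul, map_inv, hk']
    simp
  have h4 : g ^ n = (g ^ n * k⁻¹) * k := by group
  rw [h4]
  exact Subgroup.mul_mem_sup h3 hk

lemma mul_pow_commutator (x y : G) (n : ℕ) :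
    (x * y) ^ n * (x ^ n * y ^ n)⁻¹ ∈ commutator G := by
  rw [← Abelianization.ker_of, MonoidHom.mem_ker]
  simp only [map_mul, map_inv, map_pow, mul_pow]
  group

theorem main_abs (H : Subgroup G) [H.Normal] [LinearOrder H] [MulLeftMono H]
    [MulRightMono H]
    (hconj : ∀ g : G, StrictMono ((MulAut.conjNormal g : MulAut H) : H ≃* H))
    (x y : G) (hgen : Subgroup.closure {x, y} = ⊤)
    (hZ : ∀ N : Subgroup G, N.Normal → N ≤ H → (∀ h ∈ H, ∀ g : G, g * h * g⁻¹ * h⁻¹ ∈ N) →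
      ∀ h ∈ H, h ∈ commutator G ⊔ N → ∃ m : ℕ, 1 ≤ m ∧ h ^ m ∈ N)
    {n : ℕ} (hn : 1 ≤ n) (a b c : H) (ha : (a : G) = x ^ n) (hb : (b : G) = y ^ n)
    (hc : (c : G) = (x * y) ^ n) (ha1 : 1 < a) (hb1 : 1 < b) : 1 < c := by
  by_contra hcon
  push Not at hcon
  set u : H := max a (max b c⁻¹) with hudef
  have hu : 1 < u := lt_of_lt_of_le ha1 (le_max_left _ _)
  have hau : a ≤ u := le_max_left _ _
  have hbu : b ≤ u := (le_max_left _ _).trans (le_max_right _ _)
  have hcu : c⁻¹ ≤ u := (le_max_right _ _).trans (le_max_right _ _)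
  have hc1 : 1 ≤ c⁻¹ := by rw [Left.one_le_inv_iff]; exact hcon
  have haC : a ∈ Cv u hu := cvx_Cv u hu a u ha1.le hau (self_mem_Cv u hu)
  have hbC : b ∈ Cv u hu := cvx_Cv u hu b u hb1.le hbu (self_mem_Cv u hu)
  have hcC : c ∈ Cv u hu :=
    (Cv u hu).inv_mem_iff.1 (cvx_Cv u hu c⁻¹ u hc1 hcu (self_mem_Cv u hu))
  -- conjugation by g moves u inside C if g^n ∈ C
  have hsig : ∀ (g : G) (k : H), (k : G) = g ^ n → k ∈ Cv u hu →
      (MulAut.conjNormal g : MulAut H) u ∈ Cv u hu := by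
    intro g k hk hkC
    refine sigma_mem_Cv ((MulAut.conjNormal g : MulAut H) : H ≃* H) (hconj g) hn ?_
    have : ((((MulAut.conjNormal g : MulAut H) : H ≃* H)^[n]) u) = k * u * k⁻¹ := by
      apply Subtype.ext
      rw [conjNormal_iter]
      push_cast
      rw [hk]
    rw [this]
    exact (Cv u hu).mul_mem ((Cv u hu).mul_mem hkC (self_mem_Cv u hu)) ((Cv u hu).inv_mem hkC)
  have hx1 := hsig x a ha haC
  have hy1 := hsig y b hb hbC
  have hx2 := hsig x⁻¹ a⁻¹ (by push_cast; rw [ha, inv_pow]) ((Cv u hu).inv_mem haC)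
  have hy2 := hsig y⁻¹ b⁻¹ (by push_cast; rw [hb, inv_pow]) ((Cv u hu).inv_mem hbC)
  have hCinv := closed_of_gen H hgen (Cv u hu)
    (fun h hh => map_Cv _ (hconj x).monotone hx1 hh)
    (fun h hh => map_Cv _ (hconj x⁻¹).monotone hx2 hh)
    (fun h hh => map_Cv _ (hconj y).monotone hy1 hh)
    (fun h hh => map_Cv _ (hconj y⁻¹).monotone hy2 hh)
  have hDinv := closed_of_gen H hgen (Dv u hu)
    (fun h hh => map_Dv _ (hconj x) hx1 hh)
    (fun h hh => map_Dv _ (hconj x⁻¹) hx2 hh)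
    (fun h hh => map_Dv _ (hconj y) hy1 hh)
    (fun h hh => map_Dv _ (hconj y⁻¹) hy2 hh)
  -- centrality of `H` modulo an invariant convex subgroup
  have hcent : ∀ V : Subgroup H, CvxDown V →
      (∀ h : H, a * h * a⁻¹ * h⁻¹ ∈ V) → (∀ h : H, b * h * b⁻¹ * h⁻¹ ∈ V) →
      ∀ g : G, ∀ h : H, (MulAut.conjNormal g : MulAut H) h * h⁻¹ ∈ V := by
    intro V hV haV hbV
    refine central_of_gen H hgen V (fun h => ?_) (fun h => ?_)
    · refine chain hV ((MulAut.conjNormal x : MulAut H) : H ≃* H) (hconj x) h hn ?_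
      have : ((((MulAut.conjNormal x : MulAut H) : H ≃* H)^[n]) h) = a * h * a⁻¹ := by
        apply Subtype.ext
        rw [conjNormal_iter]
        push_cast
        rw [ha]
      rw [this]
      exact haV h
    · refine chain hV ((MulAut.conjNormal y : MulAut H) : H ≃* H) (hconj y) h hn ?_
      have : ((((MulAut.conjNormal y : MulAut H) : H ≃* H)^[n]) h) = b * h * b⁻¹ := by
        apply Subtype.ext
        rw [conjNormal_iter]
        push_cast
        rw [hb]
      rw [this]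
      exact hbV h
  -- transfer to subgroups of `G`
  have hmem : ∀ (V : Subgroup H) (h : H), (h : G) ∈ V.map H.subtype ↔ h ∈ V := by
    intro V h
    constructor
    · rintro ⟨k, hk, hk'⟩
      have : k = h := Subtype.ext hk'
      rwa [← this]
    · intro hh; exact ⟨h, hh, rfl⟩
  have hnorm : ∀ V : Subgroup H, (∀ g : G, ∀ h ∈ V, (MulAut.conjNormal g : MulAut H) h ∈ V) →
      (V.map H.subtype).Normal := by
    intro V hV
    refine ⟨?_⟩
    rintro _ ⟨k, hk, rfl⟩ g
    exact ⟨(MulAut.conjNormal g : MulAut H) k, hV g k hk, by simp⟩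
  have hle : ∀ V : Subgroup H, V.map H.subtype ≤ H := by
    intro V
    rintro _ ⟨k, -, rfl⟩
    exact k.2
  have hcen' : ∀ V : Subgroup H,
      (∀ g : G, ∀ h : H, (MulAut.conjNormal g : MulAut H) h * h⁻¹ ∈ V) →
      ∀ h ∈ H, ∀ g : G, g * h * g⁻¹ * h⁻¹ ∈ V.map H.subtype := by
    intro V hV h hh g
    exact ⟨(MulAut.conjNormal g : MulAut H) ⟨h, hh⟩ * (⟨h, hh⟩ : H)⁻¹, hV g ⟨h, hh⟩, by simp⟩
  -- Step 1: H ≤ C
  have hconjH : ∀ (V : Subgroup H), (∀ g : G, ∀ h ∈ V, (MulAut.conjNormal g : MulAut H) h ∈ V) →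
      ∀ k ∈ V, ∀ h : H, k * h * k⁻¹ * h⁻¹ ∈ V := by
    intro V hV k hk h
    have h1 : (MulAut.conjNormal (h : G) : MulAut H) k⁻¹ ∈ V := hV _ _ (V.inv_mem hk)
    have h2 : (MulAut.conjNormal (h : G) : MulAut H) k⁻¹ = h * k⁻¹ * h⁻¹ := by
      apply Subtype.ext; simp [mul_assoc]
    rw [h2] at h1
    have := V.mul_mem hk h1
    simpa [mul_assoc] using this
  have hC1 := hcent (Cv u hu) (cvx_Cv u hu) (hconjH _ hCinv a haC) (hconjH _ hCinv b hbC)
  have hHC : ∀ h : H, h ∈ Cv u hu := by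
    intro h
    have h1 : ((h ^ n : H) : G) ∈ commutator G ⊔ (Cv u hu).map H.subtype := by
      push_cast
      refine pow_mem_commutator_sup hgen _ ?_ ?_ _
      · rw [← ha]; exact (hmem _ _).2 haC
      · rw [← hb]; exact (hmem _ _).2 hbC
    obtain ⟨m, hm, hm'⟩ := hZ _ (hnorm _ hCinv) (hle _) (hcen' _ hC1) _ (h ^ n : H).2 h1
    have h2 : ((((h ^ n) ^ m : H)) : G) ∈ (Cv u hu).map H.subtype := by push_cast at hm' ⊢; exact hm'
    have h3 := (hmem _ _).1 h2
    rw [← pow_mul] at h3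
    exact isolated (cvx_Cv u hu) (Nat.mul_pos hn hm) h3
  -- Step 2: [H,G] ≤ D
  have hhold : ∀ k h : H, k * h * k⁻¹ * h⁻¹ ∈ Dv u hu := by
    intro k h
    have := holder (hu := hu) (hHC k⁻¹) (hHC h⁻¹)
    simpa using this
  have hD1 := hcent (Dv u hu) (cvx_Dv u hu) (hhold a) (hhold b)
  -- Step 3
  obtain ⟨m, hm, hm'⟩ := hZ _ (hnorm _ hDinv) (hle _) (hcen' _ hD1) ((c * (a * b)⁻¹ : H) : G)
    (c * (a * b)⁻¹ : H).2 (by
      have h1 := mul_pow_commutator x y n
      have h2 : ((c * (a * b)⁻¹ : H) : G) = (x * y) ^ n * (x ^ n * y ^ n)⁻¹ := by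
        push_cast
        rw [ha, hb, hc]
      rw [h2]
      exact (le_sup_left : commutator G ≤ _) h1)
  have h2 : (((c * (a * b)⁻¹) ^ m : H) : G) ∈ (Dv u hu).map H.subtype := by
    push_cast at hm' ⊢; exact hm'
  have hd : c * (a * b)⁻¹ ∈ Dv u hu := isolated (cvx_Dv u hu) hm ((hmem _ _).1 h2)
  set d := c * (a * b)⁻¹ with hddef
  have hab : a * b ≤ d⁻¹ := by
    have h3 : a * b = d⁻¹ * c := by rw [hddef]; group
    rw [h3]
    calc d⁻¹ * c ≤ d⁻¹ * 1 := mul_le_mul_right hcon _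
      _ = d⁻¹ := mul_one _
  have haD : a ∈ Dv u hu := by
    refine cvx_Dv u hu a d⁻¹ ha1.le ?_ ((Dv u hu).inv_mem hd)
    calc a = a * 1 := (mul_one a).symm
      _ ≤ a * b := mul_le_mul_right hb1.le a
      _ ≤ d⁻¹ := hab
  have hbD : b ∈ Dv u hu := by
    refine cvx_Dv u hu b d⁻¹ hb1.le ?_ ((Dv u hu).inv_mem hd)
    calc b = 1 * b := (one_mul b).symm
      _ ≤ a * b := mul_le_mul_left ha1.le b
      _ ≤ d⁻¹ := hab
  have hcD : c ∈ Dv u hu := by
    have h3 : c = d * (a * b) := by rw [hddef]; group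
    rw [h3]
    exact (Dv u hu).mul_mem hd ((Dv u hu).mul_mem haD hbD)
  apply self_not_mem_Dv u hu
  have : u = a ∨ u = b ∨ u = c⁻¹ := by
    rcases max_choice a (max b c⁻¹) with h | h
    · left; exact h
    · rcases max_choice b c⁻¹ with h' | h'
      · right; left; rw [hudef, h, h']
      · right; right; rw [hudef, h, h']
  rcases this with h | h | h
  · have := haD
    rwa [← h] at this
  · have := hbD
    rwa [← h] at this
  · have := (Dv u hu).inv_mem hcD
    rwa [← h] at this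

end abs

end Pool.Agent.H76.Ext
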