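import Mathlib

/-!
# Convex subgroups of a (bi-)ordered group generated by one element

`Cv u` is the convex subgroup generated by `u > 1`, `Dv u` the largest convex subgroup
not containing `u`.  Hölder: `[Cv u, Cv u] ≤ Dv u`.
-/

set_option autoImplicit false

namespace Pool.Agent.H76.Ext

variable {O : Type*} [Group O] [LinearOrder O] [MulLeftMono O] [MulRightMono O]

/-- A subset `V` closed under going down to `1`. -/
def CvxDown (V : Subgroup O) : Prop := ∀ s t : O, 1 ≤ s → s ≤ t → t ∈ V → s ∈ V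

lemma one_le_pow_nat {u : O} (hu : 1 ≤ u) (m : ℕ) : 1 ≤ u ^ m := one_le_pow_of_one_le' hu m

/-- The convex subgroup generated by `u`. -/
def Cv (u : O) (hu : 1 < u) : Subgroup O where
  carrier := {h | ∃ m : ℕ, h ≤ u ^ m ∧ h⁻¹ ≤ u ^ m}
  one_mem' := ⟨0, by simp⟩
  mul_mem' := by
    rintro a b ⟨m, h1, h2⟩ ⟨k, h3, h4⟩
    refine ⟨m + k, ?_, ?_⟩
    · rw [pow_add]; exact mul_le_mul' h1 h3
    · rw [mul_inv_rev, add_comm, pow_add]; exact mul_le_mul' h4 h2
  inv_mem' := by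
    rintro a ⟨m, h1, h2⟩
    exact ⟨m, h2, by simpa using h1⟩

/-- The largest convex subgroup not containing `u`. -/
def Dv (u : O) (hu : 1 < u) : Subgroup O where
  carrier := {h | ∀ m : ℕ, h ^ m < u ∧ (h⁻¹) ^ m < u}
  one_mem' := fun m => by simpa using hu
  mul_mem' := by
    intro a b ha hb m
    constructor
    · rcases le_total a b with h | h
      · calc (a * b) ^ m ≤ (b * b) ^ m := pow_le_pow_left' (mul_le_mul_left h b) m
          _ = b ^ (2 * m) := by rw [pow_mul, pow_two]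
          _ < u := (hb _).1
      · calc (a * b) ^ m ≤ (a * a) ^ m := pow_le_pow_left' (mul_le_mul_right h a) m
          _ = a ^ (2 * m) := by rw [pow_mul, pow_two]
          _ < u := (ha _).1
    · rw [mul_inv_rev]
      rcases le_total a⁻¹ b⁻¹ with h | h
      · calc (b⁻¹ * a⁻¹) ^ m ≤ (b⁻¹ * b⁻¹) ^ m := pow_le_pow_left' (mul_le_mul_right h _) m
          _ = b⁻¹ ^ (2 * m) := by rw [pow_mul, pow_two]
          _ < u := (hb _).2
      · calc (b⁻¹ * a⁻¹) ^ m ≤ (a⁻¹ * a⁻¹) ^ m := pow_le_pow_left' (mul_le_mul_left h _) m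
          _ = a⁻¹ ^ (2 * m) := by rw [pow_mul, pow_two]
          _ < u := (ha _).2
  inv_mem' := by
    intro a ha m
    exact ⟨(ha m).2, by simpa using (ha m).1⟩

lemma mem_Cv {u : O} {hu : 1 < u} {h : O} :
    h ∈ Cv u hu ↔ ∃ m : ℕ, h ≤ u ^ m ∧ h⁻¹ ≤ u ^ m := Iff.rfl

lemma mem_Dv {u : O} {hu : 1 < u} {h : O} :
    h ∈ Dv u hu ↔ ∀ m : ℕ, h ^ m < u ∧ (h⁻¹) ^ m < u := Iff.rfl

lemma inv_le_one_of {s : O} (hs : 1 ≤ s) : s⁻¹ ≤ 1 := by
  rw [Left.inv_le_one_iff]; exact hs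

lemma cvx_Cv (u : O) (hu : 1 < u) : CvxDown (Cv u hu) := by
  rintro s t hs hst ⟨m, h1, h2⟩
  exact ⟨m, hst.trans h1, (inv_le_one_of hs).trans (one_le_pow_nat hu.le m)⟩

lemma cvx_Dv (u : O) (hu : 1 < u) : CvxDown (Dv u hu) := by
  intro s t hs hst ht m
  refine ⟨(pow_le_pow_left' hst m).trans_lt (ht m).1, ?_⟩
  have : (s⁻¹) ^ m ≤ 1 := pow_le_one' (inv_le_one_of hs) m
  exact this.trans_lt hu

lemma Dv_le_Cv (u : O) (hu : 1 < u) : Dv u hu ≤ Cv u hu := by
  intro h hh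
  have := hh 1
  simp only [pow_one] at this
  exact ⟨1, by simpa using this.1.le, by simpa using this.2.le⟩

lemma self_mem_Cv (u : O) (hu : 1 < u) : u ∈ Cv u hu :=
  ⟨1, by simp, by simpa using (inv_le_one_of hu.le).trans hu.le⟩

lemma self_not_mem_Dv (u : O) (hu : 1 < u) : u ∉ Dv u hu := by
  intro h
  have := (h 1).1
  simp at this

/-- A convex subgroup is isolated. -/
lemma isolated {V : Subgroup O} (hV : CvxDown V) {h : O} {m : ℕ} (hm : 1 ≤ m)
    (hmem : h ^ m ∈ V) : h ∈ V := by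
  rcases le_total 1 h with h1 | h1
  · refine hV h (h ^ m) h1 ?_ hmem
    calc h = h ^ 1 := (pow_one h).symm
      _ ≤ h ^ m := pow_le_pow_right' h1 hm
  · have h2 : 1 ≤ h⁻¹ := by rw [Left.one_le_inv_iff]; exact h1
    have h3 : h⁻¹ ∈ V := by
      refine hV h⁻¹ (h⁻¹ ^ m) h2 ?_ (by rw [inv_pow]; exact V.inv_mem hmem)
      calc h⁻¹ = h⁻¹ ^ 1 := (pow_one _).symm
        _ ≤ h⁻¹ ^ m := pow_le_pow_right' h2 hm
    exact (V.inv_mem_iff).1 h3

/-- Order automorphisms with `σ u ∈ Cv u` preserve `Cv u`. -/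
lemma map_Cv {u : O} {hu : 1 < u} (σ : O ≃* O) (hσ : Monotone σ) (h1 : σ u ∈ Cv u hu)
    {h : O} (hh : h ∈ Cv u hu) : σ h ∈ Cv u hu := by
  obtain ⟨m, h2, h3⟩ := hh
  obtain ⟨M, h4, h5⟩ := (Cv u hu).pow_mem h1 m
  refine ⟨M, ?_, ?_⟩
  · calc σ h ≤ σ (u ^ m) := hσ h2
      _ = (σ u) ^ m := map_pow σ u m
      _ ≤ u ^ M := h4
  · calc (σ h)⁻¹ = σ h⁻¹ := (map_inv σ h).symm
      _ ≤ σ (u ^ m) := hσ h3
      _ = (σ u) ^ m := map_pow σ u m
      _ ≤ u ^ M := h4

/-- Order automorphisms with `σ u ∈ Cv u` preserve `Dv u`. -/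
lemma map_Dv {u : O} {hu : 1 < u} (σ : O ≃* O) (hσ : StrictMono σ) (h1 : σ u ∈ Cv u hu)
    {d : O} (hd : d ∈ Dv u hu) : σ d ∈ Dv u hu := by
  have key : ∀ d : O, d ∈ Dv u hu → ∀ k : ℕ, (σ d) ^ k < u := by
    intro d hd k
    by_contra hcon
    push Not at hcon
    obtain ⟨M, h4, -⟩ := h1
    have h5 : σ u ≤ σ (d ^ (k * M)) := by
      calc σ u ≤ u ^ M := h4
        _ ≤ ((σ d) ^ k) ^ M := pow_le_pow_left' hcon M
        _ = σ (d ^ (k * M)) := by rw [map_pow, pow_mul]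
    have h6 : u ≤ d ^ (k * M) := hσ.le_iff_le.1 h5
    exact absurd ((hd (k * M)).1) (not_lt.2 h6)
  intro m
  refine ⟨key d hd m, ?_⟩
  rw [← map_inv]
  exact key d⁻¹ ((Dv u hu).inv_mem hd) m

/-- If some positive iterate of `σ` moves `u` inside `Cv u`, then so does `σ`. -/
lemma sigma_mem_Cv {u : O} {hu : 1 < u} (σ : O ≃* O) (hσ : StrictMono σ) {n : ℕ} (hn : 1 ≤ n)
    (h : (σ^[n]) u ∈ Cv u hu) : σ u ∈ Cv u hu := by
  have hpos : 1 < σ u := by
    have := hσ hu
    rwa [map_one] at this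
  by_cases hcase : ∃ m : ℕ, σ u ≤ u ^ m
  · obtain ⟨m, hm⟩ := hcase
    exact ⟨m, hm, (inv_le_one_of hpos.le).trans (one_le_pow_nat hu.le m)⟩
  · exfalso
    push Not at hcase
    have key : ∀ k : ℕ, 1 ≤ k → ∀ m : ℕ, u ^ m < (σ^[k]) u := by
      intro k hk
      induction k with
      | zero => omega
      | succ k ih =>
        rcases Nat.eq_zero_or_pos k with hk0 | hk0
        · subst hk0
          simpa using hcase
        · intro m
          have h1 := ih hk0 m
          have h2 : u < σ u := by simpa using hcase 1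
          have h3 : (σ^[k]) u < (σ^[k]) (σ u) := hσ.iterate k h2
          rw [Function.iterate_succ_apply]
          exact h1.trans h3
    obtain ⟨M, h4, -⟩ := h
    exact absurd (key n hn M) (not_lt.2 h4)

/-- Chain lemma: an order automorphism whose `n`-th iterate is trivial modulo a convex
invariant subgroup is itself trivial modulo this subgroup. -/
lemma chain {V : Subgroup O} (hV : CvxDown V) (σ : O ≃* O) (hσ : StrictMono σ)
    (w : O) {n : ℕ} (hn : 1 ≤ n) (h : (σ^[n]) w * w⁻¹ ∈ V) : σ w * w⁻¹ ∈ V := by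
  set v := σ w * w⁻¹ with hv
  have hstep : ∀ k : ℕ, (σ^[k+1]) w * w⁻¹ = (σ^[k]) v * ((σ^[k]) w * w⁻¹) := by
    intro k
    have h1 : (σ^[k]) v = (σ^[k]) (σ w) * ((σ^[k]) w)⁻¹ := by
      have : ∀ (j : ℕ) (a b : O), (σ^[j]) (a * b⁻¹) = (σ^[j]) a * ((σ^[j]) b)⁻¹ := by
        intro j
        induction j with
        | zero => intro a b; simp
        | succ j ih => intro a b; simp only [Function.iterate_succ_apply, map_mul, map_inv, ih]
      exact this k _ _
    rw [h1, Function.iterate_succ_apply]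
    group
  have hone : ∀ k : ℕ, (σ^[k]) (1 : O) = 1 := by
    intro k
    induction k with
    | zero => simp
    | succ j ih => rw [Function.iterate_succ_apply, map_one, ih]
  rcases lt_trichotomy 1 v with hlt | heq | hgt
  · have key : ∀ k : ℕ, v ≤ (σ^[k+1]) w * w⁻¹ := by
      intro k
      induction k with
      | zero => rw [hstep 0]; simp
      | succ k ih =>
        rw [hstep (k+1)]
        have h1 : 1 ≤ (σ^[k+1]) v := by
          have := (hσ.iterate (k+1)).monotone hlt.le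
          rwa [hone] at this
        calc v = 1 * v := (one_mul v).symm
          _ ≤ (σ^[k+1]) v * ((σ^[k+1]) w * w⁻¹) := mul_le_mul' h1 ih
    obtain ⟨k, rfl⟩ : ∃ k, n = k + 1 := ⟨n - 1, by omega⟩
    exact hV v _ hlt.le (key k) h
  · rw [← heq]; exact V.one_mem
  · have key : ∀ k : ℕ, (σ^[k+1]) w * w⁻¹ ≤ v := by
      intro k
      induction k with
      | zero => rw [hstep 0]; simp
      | succ k ih =>
        rw [hstep (k+1)]
        have h1 : (σ^[k+1]) v ≤ 1 := by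
          have := (hσ.iterate (k+1)).monotone hgt.le
          rwa [hone] at this
        calc (σ^[k+1]) v * ((σ^[k+1]) w * w⁻¹) ≤ 1 * v := mul_le_mul' h1 ih
          _ = v := one_mul v
    obtain ⟨k, rfl⟩ : ∃ k, n = k + 1 := ⟨n - 1, by omega⟩
    have h2 : v⁻¹ ∈ V := by
      refine hV v⁻¹ ((σ^[k+1]) w * w⁻¹)⁻¹ ?_ ?_ (V.inv_mem h)
      · rw [Left.one_le_inv_iff]; exact hgt.le
      · rw [inv_le_inv_iff]; exact key k
    exact (V.inv_mem_iff).1 h2

/-- An element outside `Dv u` greater than one is cofinal in `Cv u`. -/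
lemma exists_pow_ge {u : O} {hu : 1 < u} {r : O} (hr : 1 < r) (hrD : r ∉ Dv u hu) :
    ∃ j : ℕ, u ≤ r ^ j := by
  by_contra hcon
  push Not at hcon
  exact hrD fun m => ⟨hcon m, (pow_le_one' (inv_le_one_of hr.le) m).trans_lt hu⟩

lemma zpow_le_zpow_of {r : O} (hr : 1 ≤ r) {p q : ℤ} (h : p ≤ q) : r ^ p ≤ r ^ q := by
  obtain ⟨k, rfl⟩ : ∃ k : ℕ, q = p + k := ⟨(q - p).toNat, by omega⟩
  rw [zpow_add, zpow_natCast]
  calc r ^ p = r ^ p * 1 := (mul_one _).symm
    _ ≤ r ^ p * r ^ k := mul_le_mul_right (one_le_pow_nat hr k) _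

lemma exists_floor {u : O} {hu : 1 < u} {r : O} (hr : 1 < r) (hrD : r ∉ Dv u hu)
    {h : O} (hh : h ∈ Cv u hu) : ∃ p : ℤ, r ^ p ≤ h ∧ h < r ^ (p + 1) := by
  obtain ⟨j, hj⟩ := exists_pow_ge hr hrD
  obtain ⟨m, h1, h2⟩ := hh
  have hup : h ≤ r ^ (j * m) := by
    calc h ≤ u ^ m := h1
      _ ≤ (r ^ j) ^ m := pow_le_pow_left' hj m
      _ = r ^ (j * m) := by rw [pow_mul]
  have hlow : (r ^ (j * m))⁻¹ ≤ h := by
    have h3 : h⁻¹ ≤ r ^ (j * m) := by
      calc h⁻¹ ≤ u ^ m := h2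
        _ ≤ (r ^ j) ^ m := pow_le_pow_left' hj m
        _ = r ^ (j * m) := by rw [pow_mul]
    have := inv_le_inv_iff.2 h3
    simpa using this
  have hstrict : ∀ p : ℤ, r ^ p < r ^ (p + 1) := by
    intro p
    rw [zpow_add, zpow_one]
    calc r ^ p = r ^ p * 1 := (mul_one _).symm
      _ < r ^ p * r := mul_lt_mul_right hr _
  have hbdd : ∃ b : ℤ, ∀ z : ℤ, r ^ z ≤ h → z ≤ b := by
    refine ⟨(j * m : ℕ), fun z hz => ?_⟩
    by_contra hcon
    push Not at hcon
    have h4 : r ^ (((j * m : ℕ) : ℤ) + 1) ≤ r ^ z := zpow_le_zpow_of hr.le (by omega)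
    have h5 : r ^ (((j * m : ℕ) : ℤ)) < r ^ (((j * m : ℕ) : ℤ) + 1) := hstrict _
    have h6 : r ^ (((j * m : ℕ) : ℤ)) < h := h5.trans_le (h4.trans hz)
    rw [zpow_natCast] at h6
    exact absurd h6 (not_lt.2 hup)
  have hne : ∃ z : ℤ, r ^ z ≤ h := ⟨-((j * m : ℕ) : ℤ), by rw [zpow_neg, zpow_natCast]; exact hlow⟩
  obtain ⟨p, hp1, hp2⟩ := Int.exists_greatest_of_bdd hbdd hne
  refine ⟨p, hp1, ?_⟩
  by_contra hcon
  push Not at hcon
  have := hp2 _ hcon
  omega

lemma conj_mem_Dv {u : O} {hu : 1 < u} {g : O} (hg : g ∈ Cv u hu) {d : O} (hd : d ∈ Dv u hu) :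
    g * d * g⁻¹ ∈ Dv u hu := by
  have hσ : StrictMono (MulAut.conj g) := by
    intro a b hab
    simp only [MulAut.conj_apply]
    exact mul_lt_mul_left (mul_lt_mul_right hab g) g⁻¹
  have := map_Dv (hu := hu) (MulAut.conj g) hσ
    (by simpa [MulAut.conj_apply] using
      (Cv u hu).mul_mem ((Cv u hu).mul_mem hg (self_mem_Cv u hu)) ((Cv u hu).inv_mem hg)) hd
  simpa [MulAut.conj_apply] using this

/-- Hölder's theorem, commutator form. -/
lemma holder {u : O} {hu : 1 < u} {h k : O} (hh : h ∈ Cv u hu) (hk : k ∈ Cv u hu) :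
    h⁻¹ * k⁻¹ * h * k ∈ Dv u hu := by
  -- it suffices to bound the commutator from above
  have key : ∀ h k : O, h ∈ Cv u hu → k ∈ Cv u hu →
      (∃ m : ℕ, u ≤ (h⁻¹ * k⁻¹ * h * k) ^ m) → False := by
    intro h k hh hk hex
    obtain ⟨m, hm⟩ := hex
    set w := h⁻¹ * k⁻¹ * h * k with hw
    have hw1 : 1 < w := by
      by_contra hcon
      push Not at hcon
      exact absurd (hm.trans (pow_le_one' hcon m)) (not_le.2 hu)
    have hwD : w ∉ Dv u hu := fun hD => absurd (hD m).1 (not_lt.2 hm)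
    by_cases hA : ∃ r : O, 1 < r ∧ r ∉ Dv u hu ∧ r * r ≤ w
    · obtain ⟨r, hr1, hrD, hrw⟩ := hA
      obtain ⟨p, hp1, hp2⟩ := exists_floor hr1 hrD hh
      obtain ⟨q, hq1, hq2⟩ := exists_floor hr1 hrD hk
      have h1 : h⁻¹ ≤ r ^ (-p) := by
        rw [zpow_neg]; exact inv_le_inv_iff.2 hp1
      have h2 : k⁻¹ ≤ r ^ (-q) := by
        rw [zpow_neg]; exact inv_le_inv_iff.2 hq1
      have h3 : w < r ^ (-p) * r ^ (-q) * r ^ (p + 1) * r ^ (q + 1) := by
        calc w = h⁻¹ * k⁻¹ * h * k := hw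
          _ ≤ r ^ (-p) * r ^ (-q) * r ^ (p + 1) * k :=
              mul_le_mul_left (mul_le_mul' (mul_le_mul' h1 h2) hp2.le) k
          _ < r ^ (-p) * r ^ (-q) * r ^ (p + 1) * r ^ (q + 1) := mul_lt_mul_right hq2 _
      have h4 : r ^ (-p) * r ^ (-q) * r ^ (p + 1) * r ^ (q + 1) = r * r := by
        rw [← zpow_add, ← zpow_add, ← zpow_add, ← pow_two, ← zpow_natCast]
        congr 1
        push_cast
        ring
      rw [h4] at h3
      exact absurd hrw (not_le.2 h3)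
    · push Not at hA
      have hC : ∀ x : O, x ∈ Cv u hu → ∃ (p : ℤ) (d : O), d ∈ Dv u hu ∧ x = w ^ p * d := by
        intro x hx
        obtain ⟨p, hp1, hp2⟩ := exists_floor hw1 hwD hx
        set t := (w ^ p)⁻¹ * x with ht
        have ht1 : 1 ≤ t := by
          have := mul_le_mul_right hp1 (w ^ p)⁻¹
          rw [inv_mul_cancel] at this
          exact this
        have htw : t < w := by
          have := mul_lt_mul_right hp2 (w ^ p)⁻¹
          rw [zpow_add, zpow_one, ← mul_assoc, inv_mul_cancel, one_mul] at this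
          exact this
        by_cases htD : t ∈ Dv u hu
        · exact ⟨p, t, htD, by rw [ht]; group⟩
        · set t' := t⁻¹ * w with ht'
          have ht'1 : 1 < t' := by
            have := mul_lt_mul_right htw t⁻¹
            rw [inv_mul_cancel] at this
            exact this
          have htt' : t * t' = w := by rw [ht']; group
          have ht1' : 1 < t := lt_of_le_of_ne ht1 (fun h0 => htD (h0 ▸ (Dv u hu).one_mem))
          have ht'D : t' ∈ Dv u hu := by
            by_contra ht'D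
            rcases le_total t t' with hle | hle
            · have h5 : t * t ≤ w := by
                calc t * t ≤ t * t' := mul_le_mul_right hle t
                  _ = w := htt'
              exact absurd (hA t ht1' htD) (not_lt.2 h5)
            · have h5 : t' * t' ≤ w := by
                calc t' * t' ≤ t * t' := mul_le_mul_left hle t'
                  _ = w := htt'
              exact absurd (hA t' ht'1 ht'D) (not_lt.2 h5)
          refine ⟨p + 1, t'⁻¹, (Dv u hu).inv_mem ht'D, ?_⟩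
          rw [ht', ht, zpow_add, zpow_one]
          group
      obtain ⟨p, d, hd, hp⟩ := hC h hh
      obtain ⟨q, e, he, hq⟩ := hC k hk
      have hwC : w ∈ Cv u hu := by
        rw [hw]
        exact (Cv u hu).mul_mem ((Cv u hu).mul_mem ((Cv u hu).mul_mem ((Cv u hu).inv_mem hh)
          ((Cv u hu).inv_mem hk)) hh) hk
      have e1 : w = d⁻¹ * (w ^ (-p) * e⁻¹ * (w ^ (-p))⁻¹) * (w ^ (-q) * d * (w ^ (-q))⁻¹) * e := by
        conv_lhs => rw [hw, hp, hq]
        simp only [mul_inv_rev, zpow_neg, inv_inv]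
        have hcomm : (w ^ q)⁻¹ * w ^ p = w ^ p * (w ^ q)⁻¹ := by
          rw [← zpow_neg, ← zpow_add, ← zpow_add, add_comm]
        have : d⁻¹ * (w ^ p)⁻¹ * (e⁻¹ * (w ^ q)⁻¹) * (w ^ p * d) * (w ^ q * e)
            = d⁻¹ * (w ^ p)⁻¹ * e⁻¹ * ((w ^ q)⁻¹ * w ^ p) * d * w ^ q * e := by group
        rw [this, hcomm]
        group
      apply hwD
      rw [e1]
      have hzw : ∀ z : ℤ, w ^ z ∈ Cv u hu := fun z => (Cv u hu).zpow_mem hwC z
      exact (Dv u hu).mul_mem ((Dv u hu).mul_mem ((Dv u hu).mul_mem ((Dv u hu).inv_mem hd)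
        (conj_mem_Dv (hzw _) ((Dv u hu).inv_mem he))) (conj_mem_Dv (hzw _) hd)) he
  intro m
  constructor
  · by_contra hcon
    push Not at hcon
    exact key h k hh hk ⟨m, hcon⟩
  · by_contra hcon
    push Not at hcon
    refine key k h hk hh ⟨m, ?_⟩
    have : (h⁻¹ * k⁻¹ * h * k)⁻¹ = k⁻¹ * h⁻¹ * k * h := by group
    rwa [this] at hcon

end Pool.Agent.H76.Ext
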